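import Mathlib

/-!
# Definitions: `Diff(S^n)` with right-invariant `W^{s,p}` metrics (MP_395ed7_gt)
-/

set_option autoImplicit false

open scoped Manifold ContDiff ENNReal Topology
open MeasureTheory Metric Set

namespace Pool.Agent.L0h85.DS

/-- Euclidean space `ℝ^n` -/
abbrev V (n : ℕ) := EuclideanSpace ℝ (Fin n)

/-- the unit sphere `S^n` in `ℝ^(n+1)`, with Mathlib's structure of a smooth manifold -/
abbrev Sph (n : ℕ) := sphere (0 : V (n + 1)) 1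

instance factV (n : ℕ) : Fact (Module.finrank ℝ (V (n + 1)) = n + 1) := ⟨by simp⟩

/-- the group of the smooth diffeomorphisms of `S^n` -/
abbrev Dif (n : ℕ) := Diffeomorph (𝓡 n) (𝓡 n) (Sph n) (Sph n) ∞

/-- smooth paths of diffeomorphisms: `(t, x) ↦ φ_t(x)` and `(t, x) ↦ φ_t⁻¹(x)` are smooth -/
def SmoothPath {n : ℕ} (Φ : ℝ → Dif n) : Prop :=
  ContMDiff (𝓘(ℝ, ℝ).prod (𝓡 n)) (𝓡 n) ∞ (fun q : ℝ × Sph n => Φ q.1 q.2) ∧
  ContMDiff (𝓘(ℝ, ℝ).prod (𝓡 n)) (𝓡 n) ∞ (fun q : ℝ × Sph n => (Φ q.1).symm q.2)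

/-- the velocity `∂_t φ ∘ φ⁻¹`, a vector field on `S^n`, with values in `ℝ^(n+1)` -/
noncomputable def vel {n : ℕ} (Φ : ℝ → Dif n) (t : ℝ) (x : Sph n) : V (n + 1) :=
  deriv (fun s => ((Φ s ((Φ t).symm x) : Sph n) : V (n + 1))) t

/-- the Sobolev norm `W^{k+σ,p}` of functions on `ℝ^n`, `0 ≤ σ < 1` -/
noncomputable def sob {n d : ℕ} (k : ℕ) (σ p : ℝ) (f : V n → V d) : ℝ≥0∞ :=
  (∑ j ∈ Finset.range (k + 1), ∫⁻ x, ‖iteratedFDeriv ℝ j f x‖ₑ ^ p) ^ (1 / p) +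
  if σ = 0 then 0 else
    (∫⁻ x, ∫⁻ y, ‖iteratedFDeriv ℝ k f x - iteratedFDeriv ℝ k f y‖ₑ ^ p / ‖x - y‖ₑ ^ ((n : ℝ) + σ * p)) ^ (1 / p)

/-- A smooth chart `e` of `S^n` (any chart of the maximal atlas, for instance the inverse of the
exponential map on a small geodesic ball) and a smooth function `W` on `S^n`, supported in the domain
of the chart, with values linear maps `ℝ^(n+1) → ℝ^d`: for instance `W = ρ • id` with a function `ρ` of
a partition of unity, or `W = ρ D e` -/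
structure Chart (n : ℕ) where
  d : ℕ
  e : OpenPartialHomeomorph (Sph n) (V n)
  he : e ∈ IsManifold.maximalAtlas (𝓡 n) ∞ (Sph n)
  W : Sph n → (V (n + 1) →L[ℝ] V d)
  hW : ContMDiff (𝓡 n) 𝓘(ℝ, V (n + 1) →L[ℝ] V d) ∞ W
  hsupp : tsupport W ⊆ e.source

open Classical in
/-- the local representative of the field `h` in the chart: `(W h) ∘ e⁻¹`, extended by zero -/
noncomputable def Chart.rep {n : ℕ} (A : Chart n) (h : Sph n → V (n + 1)) (z : V n) : V A.d :=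
  if z ∈ A.e.target then A.W (A.e.symm z) (h (A.e.symm z)) else 0

/-- the norm `W^{k+σ,p}(S^n)` of vector fields, defined by a finite family of charts -/
noncomputable def sobS {n : ℕ} {ι : Type} [Fintype ι] (A : ι → Chart n) (k : ℕ) (σ p : ℝ)
    (h : Sph n → V (n + 1)) : ℝ≥0∞ :=
  (∑ α, sob k σ p ((A α).rep h) ^ 2) ^ (1 / 2 : ℝ)

end Pool.Agent.L0h85.DS
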