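import Pool.Agent.L0h85.DS.Path

/-! # Flat families: scaling, velocities, uniform bounds -/

set_option autoImplicit false

open scoped Manifold ContDiff ENNReal Topology
open MeasureTheory Metric Set

namespace Pool.Agent.L0h85.DS

variable {n : ℕ}

theorem Flat.hR' (g : Flat n) (t : ℝ) (y : V n) (hy : g.R ≤ ‖y‖) : g.δ t y = y := by
  have := g.left t y
  rwa [g.hR t y hy] at this

/-- the scaled family `y ↦ q + ε γ((y - q) / ε)` -/
noncomputable def Flat.scale (g : Flat n) (q : V n) (ε : ℝ) (hε : 0 < ε) : Flat n where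
  γ t y := q + ε • g.γ t (ε⁻¹ • (y - q))
  δ t y := q + ε • g.δ t (ε⁻¹ • (y - q))
  hγ := by
    have h : ContDiff ℝ ∞ (fun z : ℝ × V n => (z.1, ε⁻¹ • (z.2 - q))) :=
      contDiff_fst.prodMk ((contDiff_snd.sub contDiff_const).const_smul _)
    exact contDiff_const.add ((g.hγ.comp h).const_smul ε)
  hδ := by
    have h : ContDiff ℝ ∞ (fun z : ℝ × V n => (z.1, ε⁻¹ • (z.2 - q))) :=
      contDiff_fst.prodMk ((contDiff_snd.sub contDiff_const).const_smul _)
    exact contDiff_const.add ((g.hδ.comp h).const_smul ε)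
  left t y := by
    simp only [add_sub_cancel_left]
    rw [smul_smul, inv_mul_cancel₀ hε.ne', one_smul, g.left, smul_smul, mul_inv_cancel₀ hε.ne', one_smul]
    abel
  right t y := by
    simp only [add_sub_cancel_left]
    rw [smul_smul, inv_mul_cancel₀ hε.ne', one_smul, g.right, smul_smul, mul_inv_cancel₀ hε.ne', one_smul]
    abel
  R := ‖q‖ + ε * |g.R|
  hR t y hy := by
    have h1 : ‖y‖ ≤ ‖y - q‖ + ‖q‖ := by
      calc ‖y‖ = ‖(y - q) + q‖ := by rw [sub_add_cancel]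
        _ ≤ _ := norm_add_le _ _
    have h2 : ε * |g.R| ≤ ‖y - q‖ := by linarith
    have h3 : g.R ≤ ‖ε⁻¹ • (y - q)‖ := by
      rw [norm_smul, norm_inv, Real.norm_of_nonneg hε.le]
      have h4 : |g.R| ≤ ε⁻¹ * ‖y - q‖ := by
        rw [← div_eq_inv_mul, le_div_iff₀ hε]
        linarith
      exact (le_abs_self _).trans h4
    rw [g.hR t _ h3, smul_smul, mul_inv_cancel₀ hε.ne', one_smul]
    abel

theorem Flat.diff (g : Flat n) (t : ℝ) (z : V n) : DifferentiableAt ℝ (fun s => g.γ s z) t := by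
  have h : ContDiff ℝ ∞ (fun s : ℝ => g.γ s z) := g.hγ.comp (contDiff_id.prodMk contDiff_const)
  exact h.differentiable (by simp) t

theorem Flat.scale_w (g : Flat n) (q : V n) (ε : ℝ) (hε : 0 < ε) (t : ℝ) (y : V n) :
    (g.scale q ε hε).w t y = ε • g.w t (ε⁻¹ • (y - q)) := by
  unfold Flat.w
  have h1 : (fun s => (g.scale q ε hε).γ s ((g.scale q ε hε).δ t y)) =
      fun s => q + ε • g.γ s (g.δ t (ε⁻¹ • (y - q))) := by
    funext s
    show q + ε • g.γ s (ε⁻¹ • ((q + ε • g.δ t (ε⁻¹ • (y - q))) - q)) = _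
    rw [add_sub_cancel_left, smul_smul, inv_mul_cancel₀ hε.ne', one_smul]
  rw [h1, deriv_const_add, deriv_fun_const_smul _ (g.diff t _)]

theorem Flat.w_smooth (g : Flat n) : ContDiff ℝ ∞ (fun q : ℝ × V n => g.w q.1 q.2) := by
  have h1 : ∀ q : ℝ × V n, g.w q.1 q.2 =
      fderiv ℝ (fun q : ℝ × V n => g.γ q.1 q.2) (q.1, g.δ q.1 q.2) ((1 : ℝ), (0 : V n)) := by
    intro q
    unfold Flat.w
    have hd : DifferentiableAt ℝ (fun q : ℝ × V n => g.γ q.1 q.2) (q.1, g.δ q.1 q.2) :=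
      g.hγ.differentiable (by simp) _
    have h2 : HasDerivAt (fun s : ℝ => (s, g.δ q.1 q.2)) ((1 : ℝ), (0 : V n)) q.1 :=
      (hasDerivAt_id q.1).prodMk (hasDerivAt_const q.1 _)
    exact (hd.hasFDerivAt.comp_hasDerivAt q.1 h2).deriv
  have h2 : (fun q : ℝ × V n => g.w q.1 q.2) = fun q =>
      fderiv ℝ (fun q : ℝ × V n => g.γ q.1 q.2) (q.1, g.δ q.1 q.2) ((1 : ℝ), (0 : V n)) := funext h1
  rw [h2]
  have h3 : ContDiff ℝ ∞ (fderiv ℝ (fun q : ℝ × V n => g.γ q.1 q.2)) := g.hγ.fderiv_right (by simp)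
  exact (h3.comp (contDiff_fst.prodMk g.hδ)).clm_apply contDiff_const

theorem Flat.w_zero (g : Flat n) (t : ℝ) (y : V n) (hy : g.R ≤ ‖y‖) : g.w t y = 0 := by
  unfold Flat.w
  have : (fun s => g.γ s (g.δ t y)) = fun _ => y := by
    funext s
    rw [g.hR' t y hy, g.hR s y hy]
  rw [this]
  simp

/-- the derivatives of a partial function are bounded by the derivatives of the function -/
theorem norm_iter_partial_le {E : Type*} [NormedAddCommGroup E] [NormedSpace ℝ E] {F : Type*} [NormedAddCommGroup F]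
    [NormedSpace ℝ F] (W : ℝ × E → F) (hW : ContDiff ℝ ∞ W) (t : ℝ) (j : ℕ) (y : E) :
    ‖iteratedFDeriv ℝ j (fun y => W (t, y)) y‖ ≤ ‖iteratedFDeriv ℝ j W (t, y)‖ := by
  have h1 : (fun y => W (t, y)) = (fun z => W (z + (t, (0 : E)))) ∘ (ContinuousLinearMap.inr ℝ ℝ E) := by
    funext y; simp
  have hW' : ContDiff ℝ j (fun z => W (z + (t, (0 : E)))) :=
    (hW.comp (contDiff_id.add contDiff_const)).of_le (by exact_mod_cast le_top)
  rw [h1, ContinuousLinearMap.iteratedFDeriv_comp_right (ContinuousLinearMap.inr ℝ ℝ E) hW' y le_rfl]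
  refine (ContinuousMultilinearMap.norm_compContinuousLinearMap_le _ _).trans ?_
  rw [iteratedFDeriv_comp_add_right]
  have h2 : ‖ContinuousLinearMap.inr ℝ ℝ E‖ ≤ 1 := ContinuousLinearMap.norm_inr_le_one ℝ ℝ E
  have h3 : (ContinuousLinearMap.inr ℝ ℝ E) y + (t, (0 : E)) = (t, y) := by simp
  rw [h3]
  have h4 : ∏ _i : Fin j, ‖ContinuousLinearMap.inr ℝ ℝ E‖ ≤ 1 :=
    Finset.prod_le_one (fun _ _ => norm_nonneg _) (fun _ _ => h2)
  calc _ ≤ ‖iteratedFDeriv ℝ j W (t, y)‖ * 1 := by gcongr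
    _ = _ := mul_one _

theorem Flat.w_bound (g : Flat n) (k : ℕ) : ∃ M : ℝ, 0 ≤ M ∧ ∀ t ∈ Icc (0 : ℝ) 1, ∀ j ≤ k, ∀ y,
    ‖iteratedFDeriv ℝ j (g.w t) y‖ ≤ M := by
  set W : ℝ × V n → V n := fun q => g.w q.1 q.2 with hWdef
  have hW : ContDiff ℝ ∞ W := g.w_smooth
  have hcpt : IsCompact (Icc (0 : ℝ) 1 ×ˢ closedBall (0 : V n) g.R) :=
    isCompact_Icc.prod (isCompact_closedBall _ _)
  have hb : ∀ j : ℕ, ∃ M : ℝ, ∀ z ∈ Icc (0 : ℝ) 1 ×ˢ closedBall (0 : V n) g.R, ‖iteratedFDeriv ℝ j W z‖ ≤ M := by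
    intro j
    have hc : Continuous (iteratedFDeriv ℝ j W) := hW.continuous_iteratedFDeriv (by exact_mod_cast le_top)
    exact hcpt.exists_bound_of_continuousOn hc.continuousOn
  choose M hM using hb
  refine ⟨∑ j ∈ Finset.range (k + 1), |M j|, Finset.sum_nonneg fun _ _ => abs_nonneg _, ?_⟩
  intro t ht j hj y
  by_cases hy : ‖y‖ ≤ g.R
  · have h1 : ‖iteratedFDeriv ℝ j (g.w t) y‖ ≤ ‖iteratedFDeriv ℝ j W (t, y)‖ :=
      norm_iter_partial_le W hW t j y
    have h2 := hM j (t, y) ⟨ht, by simpa [mem_closedBall, dist_zero_right] using hy⟩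
    have h3 : |M j| ≤ ∑ j ∈ Finset.range (k + 1), |M j| :=
      Finset.single_le_sum (f := fun j => |M j|) (fun _ _ => abs_nonneg _) (Finset.mem_range.mpr (by omega))
    exact h1.trans (h2.trans ((le_abs_self _).trans h3))
  · push Not at hy
    have h1 : g.w t =ᶠ[𝓝 y] fun _ => 0 := by
      have : {z : V n | g.R < ‖z‖} ∈ 𝓝 y := (isOpen_lt continuous_const continuous_norm).mem_nhds hy
      filter_upwards [this] with z hz
      exact g.w_zero t z (le_of_lt hz)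
    have h2 : iteratedFDeriv ℝ j (g.w t) y = 0 := by
      refine image_eq_zero_of_notMem_tsupport fun h => ?_
      exact (notMem_tsupport_iff_eventuallyEq.mpr h1) (tsupport_iteratedFDeriv_subset (𝕜 := ℝ) j h)
    rw [h2, norm_zero]
    exact Finset.sum_nonneg fun _ _ => abs_nonneg _

theorem Flat.w_smooth' (g : Flat n) (t : ℝ) : ContDiff ℝ ∞ (g.w t) :=
  g.w_smooth.comp (contDiff_const.prodMk contDiff_id)

end Pool.Agent.L0h85.DS
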