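import Pool.Agent.L0h85.DS.Mods

/-! # Homogeneity of the Sobolev norm -/

set_option autoImplicit false

open scoped Manifold ContDiff ENNReal Topology
open MeasureTheory Metric Set

namespace Pool.Agent.L0h85.DS

variable {n d : ℕ}

theorem iter_smul (a : ℝ) (f : V n → V d) (j : ℕ) :
    iteratedFDeriv ℝ j (fun x => a • f x) = fun x => a • iteratedFDeriv ℝ j f x := by
  induction j with
  | zero =>
    funext x
    ext m
    simp [iteratedFDeriv_zero_apply]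
  | succ j ih =>
    funext x
    have h1 : iteratedFDeriv ℝ j (fun x => a • f x) = a • iteratedFDeriv ℝ j f := by
      rw [ih]; rfl
    rw [iteratedFDeriv_succ_eq_comp_left, iteratedFDeriv_succ_eq_comp_left, h1]
    simp only [Function.comp_apply]
    rw [fderiv_const_smul_field]
    simp

theorem sob_smul (a : ℝ) (ha : a ≠ 0) (k : ℕ) (σ p : ℝ) (hp : 0 < p) (f : V n → V d) :
    sob k σ p (fun x => a • f x) = ‖a‖ₑ * sob k σ p f := by
  have ha' : ‖a‖ₑ ≠ 0 := by simpa using ha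
  have hat : ‖a‖ₑ ≠ ⊤ := enorm_ne_top
  have hap : ‖a‖ₑ ^ p ≠ ⊤ := ENNReal.rpow_ne_top_of_nonneg hp.le hat
  have key : (‖a‖ₑ ^ p) ^ (1 / p) = ‖a‖ₑ := by
    rw [← ENNReal.rpow_mul, mul_one_div_cancel hp.ne', ENNReal.rpow_one]
  unfold sob
  simp only [iter_smul]
  have h1 : (∑ j ∈ Finset.range (k + 1), ∫⁻ x, ‖a • iteratedFDeriv ℝ j f x‖ₑ ^ p) =
      ‖a‖ₑ ^ p * ∑ j ∈ Finset.range (k + 1), ∫⁻ x, ‖iteratedFDeriv ℝ j f x‖ₑ ^ p := by
    rw [Finset.mul_sum]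
    refine Finset.sum_congr rfl fun j _ => ?_
    rw [← lintegral_const_mul' _ _ hap]
    refine lintegral_congr fun x => ?_
    rw [enorm_smul, ENNReal.mul_rpow_of_nonneg _ _ hp.le]
  have h2 : (∫⁻ x, ∫⁻ y, ‖a • iteratedFDeriv ℝ k f x - a • iteratedFDeriv ℝ k f y‖ₑ ^ p /
        ‖x - y‖ₑ ^ ((n : ℝ) + σ * p)) =
      ‖a‖ₑ ^ p * ∫⁻ x, ∫⁻ y, ‖iteratedFDeriv ℝ k f x - iteratedFDeriv ℝ k f y‖ₑ ^ p /
        ‖x - y‖ₑ ^ ((n : ℝ) + σ * p) := by
    rw [← lintegral_const_mul' _ _ hap]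
    refine lintegral_congr fun x => ?_
    rw [← lintegral_const_mul' _ _ hap]
    refine lintegral_congr fun y => ?_
    rw [← smul_sub, enorm_smul, ENNReal.mul_rpow_of_nonneg _ _ hp.le, mul_div_assoc]
  rw [h1, h2]
  have hq : (0:ℝ) ≤ 1 / p := by positivity
  rw [ENNReal.mul_rpow_of_nonneg _ _ hq, key]
  split_ifs with h
  · simp
  · rw [ENNReal.mul_rpow_of_nonneg _ _ hq, key, mul_add]

theorem rep_smul (A : Chart n) (a : ℝ) (h : Sph n → V (n + 1)) :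
    A.rep (fun x => a • h x) = fun z => a • A.rep h z := by
  funext z
  unfold Chart.rep
  split_ifs <;> simp

theorem sobS_smul {ι : Type} [Fintype ι] (A : ι → Chart n) (a : ℝ) (ha : a ≠ 0) (k : ℕ) (σ p : ℝ) (hp : 0 < p)
    (h : Sph n → V (n + 1)) :
    sobS A k σ p (fun x => a • h x) = ‖a‖ₑ * sobS A k σ p h := by
  unfold sobS
  simp only [rep_smul]
  have : ∀ α, sob k σ p (fun z => a • (A α).rep h z) = ‖a‖ₑ * sob k σ p ((A α).rep h) := fun α =>
    sob_smul a ha k σ p hp _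
  simp only [this, mul_pow]
  rw [← Finset.mul_sum, ENNReal.mul_rpow_of_nonneg _ _ (by norm_num : (0:ℝ) ≤ 1/2)]
  congr 1
  rw [← ENNReal.rpow_natCast, ← ENNReal.rpow_mul]
  norm_num

end Pool.Agent.L0h85.DS
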