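import Pool.Agent.L0h85.DS.Mods

/-!
# Module M1: the flat Sobolev estimate
-/

set_option autoImplicit false

open scoped Manifold ContDiff ENNReal Topology
open MeasureTheory Metric Set

namespace Pool.Agent.L0h85.DS

namespace M1Aux

/-- the radial kernel -/
noncomputable def hker (n : ℕ) (σ p : ℝ) (r : ℝ) : ℝ := min r 1 ^ p / r ^ ((n : ℝ) + σ * p)

theorem hker_nonneg (n : ℕ) (σ p r : ℝ) (hr : 0 ≤ r) : 0 ≤ hker n σ p r := by
  unfold hker
  positivity

theorem hker_integrable (n : ℕ) (σ p : ℝ) (hn : 1 ≤ n) (h0 : 0 < σ) (h1 : σ < 1) (hp : 1 ≤ p) :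
    Integrable (fun z : V n => hker n σ p ‖z‖) := by
  have : Nontrivial (V n) := by
    have : Nonempty (Fin n) := ⟨⟨0, hn⟩⟩
    infer_instance
  have hdim : Module.finrank ℝ (V n) = n := by simp
  rw [integrable_fun_norm_addHaar (μ := (volume : Measure (V n))) (f := hker n σ p), hdim]
  have hcast : ((n - 1 : ℕ) : ℝ) = (n : ℝ) - 1 := by
    rw [Nat.cast_sub hn]; norm_num
  rw [← Ioc_union_Ioi_eq_Ioi (zero_le_one (α := ℝ)), integrableOn_union]
  constructor
  · have hI : IntegrableOn (fun y : ℝ => y ^ (p * (1 - σ) - 1)) (Ioc 0 1) := by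
      have := intervalIntegral.intervalIntegrable_rpow' (a := 0) (b := 1)
        (r := p * (1 - σ) - 1) (by nlinarith [mul_pos (by linarith : (0:ℝ) < p) (by linarith : 0 < 1 - σ)])
      rwa [intervalIntegrable_iff_integrableOn_Ioc_of_le zero_le_one] at this
    refine hI.congr_fun ?_ measurableSet_Ioc
    intro y hy
    have hy0 : 0 < y := hy.1
    simp only [hker, smul_eq_mul]
    rw [min_eq_left hy.2, ← Real.rpow_natCast, hcast, mul_div_assoc', ← Real.rpow_add hy0,
      ← Real.rpow_sub hy0]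
    congr 1
    ring
  · have hI : IntegrableOn (fun y : ℝ => y ^ (-1 - σ * p)) (Ioi 1) :=
      integrableOn_Ioi_rpow_of_lt (by nlinarith [mul_pos h0 (by linarith : (0:ℝ) < p)]) one_pos
    refine hI.congr_fun ?_ measurableSet_Ioi
    intro y hy
    have hy1 : (1 : ℝ) < y := hy
    have hy0 : 0 < y := by linarith
    simp only [hker, smul_eq_mul]
    rw [min_eq_right hy1.le, Real.one_rpow, ← Real.rpow_natCast, hcast, mul_div_assoc', mul_one,
      ← Real.rpow_sub hy0]
    congr 1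
    ring

/-- the constant of the kernel -/
noncomputable def cker (n : ℕ) (σ p : ℝ) : ℝ≥0∞ := ∫⁻ z : V n, ENNReal.ofReal (hker n σ p ‖z‖)

theorem cker_lt (n : ℕ) (σ p : ℝ) (hn : 1 ≤ n) (h0 : 0 < σ) (h1 : σ < 1) (hp : 1 ≤ p) :
    cker n σ p < ⊤ := (hker_integrable n σ p hn h0 h1 hp).lintegral_lt_top

/-- the scaled kernel -/
noncomputable def ker (n : ℕ) (σ p ε : ℝ) (z : V n) : ℝ≥0∞ :=
  ENNReal.ofReal (ε ^ (-((n : ℝ) + σ * p))) * ENNReal.ofReal (hker n σ p ‖ε⁻¹ • z‖)

theorem measurable_hker (n : ℕ) (σ p : ℝ) : Measurable (fun z : V n => ENNReal.ofReal (hker n σ p ‖z‖)) := by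
  unfold hker
  fun_prop

theorem measurable_ker (n : ℕ) (σ p ε : ℝ) : Measurable (ker n σ p ε) := by
  unfold ker hker
  fun_prop

theorem lintegral_ker (n : ℕ) (σ p ε : ℝ) (hε : 0 < ε) :
    ∫⁻ z : V n, ker n σ p ε z = ENNReal.ofReal (ε ^ (-(σ * p))) * cker n σ p := by
  unfold ker cker
  rw [lintegral_const_mul' _ _ ENNReal.ofReal_ne_top]
  have hmap := Measure.map_addHaar_smul (volume : Measure (V n)) (inv_ne_zero hε.ne')
  have h := lintegral_map (μ := (volume : Measure (V n))) (measurable_hker n σ p)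
    (measurable_const_smul (ε⁻¹ : ℝ) : Measurable (fun z : V n => ε⁻¹ • z))
  rw [hmap, lintegral_smul_measure] at h
  rw [← h]
  have hdim : Module.finrank ℝ (V n) = n := by simp
  rw [hdim, smul_eq_mul, ← mul_assoc, ← ENNReal.ofReal_mul (by positivity)]
  congr 2
  rw [inv_pow, inv_inv, abs_of_nonneg (by positivity), ← Real.rpow_natCast, ← Real.rpow_add hε]
  congr 1
  ring

theorem enorm_rpow {E : Type*} [NormedAddCommGroup E] (a : E) (p : ℝ) (hp : 0 ≤ p) :
    ‖a‖ₑ ^ p = ENNReal.ofReal (‖a‖ ^ p) := by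
  rw [← ofReal_norm, ENNReal.ofReal_rpow_of_nonneg (norm_nonneg _) hp]

/-- the pointwise bound of the Gagliardo integrand -/
theorem pointwise {E : Type*} [NormedAddCommGroup E] (n : ℕ) (σ p ε B : ℝ) (hσ : 0 < σ) (hp : 1 ≤ p) (hε : 0 < ε)
    (hB : 0 ≤ B) (g : V n → E) (x y : V n) (h1 : ‖g x - g y‖ ≤ B * (‖x - y‖ / ε)) (h2 : ‖g x - g y‖ ≤ B) :
    ‖g x - g y‖ₑ ^ p / ‖x - y‖ₑ ^ ((n : ℝ) + σ * p) ≤ ENNReal.ofReal (B ^ p) * ker n σ p ε (x - y) := by
  have hp0 : 0 < p := by linarith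
  have hexp : 0 < (n : ℝ) + σ * p := by positivity
  rcases eq_or_ne x y with h | h
  · subst h
    simp [hp0]
  have hr : 0 < ‖x - y‖ := norm_pos_iff.2 (sub_ne_zero.2 h)
  rw [enorm_rpow _ _ hp0.le, enorm_rpow _ _ hexp.le, ← ENNReal.ofReal_div_of_pos (by positivity)]
  unfold ker hker
  rw [← ENNReal.ofReal_mul (by positivity), ← ENNReal.ofReal_mul (by positivity)]
  apply ENNReal.ofReal_le_ofReal
  rw [norm_smul, norm_inv, Real.norm_of_nonneg hε.le]
  have e1 : (ε⁻¹ * ‖x - y‖) ^ ((n : ℝ) + σ * p) = ε ^ (-((n : ℝ) + σ * p)) * ‖x - y‖ ^ ((n : ℝ) + σ * p) := by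
    rw [Real.mul_rpow (by positivity) hr.le, Real.inv_rpow hε.le, Real.rpow_neg hε.le]
  rw [e1]
  have e2 : B ^ p * (ε ^ (-((n : ℝ) + σ * p)) * (min (ε⁻¹ * ‖x - y‖) 1 ^ p /
      (ε ^ (-((n : ℝ) + σ * p)) * ‖x - y‖ ^ ((n : ℝ) + σ * p)))) =
      (B * min (ε⁻¹ * ‖x - y‖) 1) ^ p / ‖x - y‖ ^ ((n : ℝ) + σ * p) := by
    rw [Real.mul_rpow hB (by positivity)]
    have h3 : ε ^ (-((n : ℝ) + σ * p)) ≠ 0 := (Real.rpow_pos_of_pos hε _).ne'
    have h4 : ‖x - y‖ ^ ((n : ℝ) + σ * p) ≠ 0 := (Real.rpow_pos_of_pos hr _).ne'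
    field_simp
  rw [e2]
  gcongr
  rcases min_choice (ε⁻¹ * ‖x - y‖) 1 with h3 | h3
  · rw [h3]
    refine h1.trans (le_of_eq ?_)
    ring
  · rw [h3]
    linarith

/-- the Gagliardo integral -/
theorem gagliardo {E : Type*} [NormedAddCommGroup E] (n : ℕ) (σ p ε B m : ℝ) (hσ : 0 < σ) (hp : 1 ≤ p)
    (hε : 0 < ε) (hB : 0 ≤ B) (g : V n → E) (A : Set (V n)) (hA : MeasurableSet A)
    (hm : volume A ≤ ENNReal.ofReal m) (hg : ∀ x, x ∉ A → g x = 0)
    (h1 : ∀ x y, ‖g x - g y‖ ≤ B * (‖x - y‖ / ε)) (h2 : ∀ x y, ‖g x - g y‖ ≤ B) :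
    ∫⁻ x, ∫⁻ y, ‖g x - g y‖ₑ ^ p / ‖x - y‖ₑ ^ ((n : ℝ) + σ * p) ≤
      2 * (ENNReal.ofReal m * (ENNReal.ofReal (B ^ p) * (ENNReal.ofReal (ε ^ (-(σ * p))) * cker n σ p))) := by
  have hp0 : 0 < p := by linarith
  set K : V n → ℝ≥0∞ := fun z => ENNReal.ofReal (B ^ p) * ker n σ p ε z with hK
  have hKm : Measurable K := (measurable_ker n σ p ε).const_mul _
  have hKi : ∫⁻ z, K z = ENNReal.ofReal (B ^ p) * (ENNReal.ofReal (ε ^ (-(σ * p))) * cker n σ p) := by
    rw [hK, lintegral_const_mul' _ _ ENNReal.ofReal_ne_top, lintegral_ker n σ p ε hε]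
  have hpt : ∀ x y, ‖g x - g y‖ₑ ^ p / ‖x - y‖ₑ ^ ((n : ℝ) + σ * p) ≤
      A.indicator 1 x * K (x - y) + A.indicator 1 y * K (x - y) := by
    intro x y
    by_cases hx : x ∈ A
    · rw [indicator_of_mem hx, Pi.one_apply, one_mul]
      exact (pointwise n σ p ε B hσ hp hε hB g x y (h1 x y) (h2 x y)).trans le_self_add
    · by_cases hy : y ∈ A
      · rw [indicator_of_mem hy, Pi.one_apply, one_mul]
        exact (pointwise n σ p ε B hσ hp hε hB g x y (h1 x y) (h2 x y)).trans le_add_self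
      · rw [hg x hx, hg y hy]
        simp [hp0]
  have hmeas1 : Measurable (fun q : V n × V n => K (q.1 - q.2)) := hKm.comp (measurable_fst.sub measurable_snd)
  have hind : Measurable (A.indicator (1 : V n → ℝ≥0∞)) := measurable_one.indicator hA
  have i1 : ∫⁻ x, ∫⁻ y, A.indicator 1 x * K (x - y) = volume A * ∫⁻ z, K z := by
    have : ∀ x, ∫⁻ y, A.indicator 1 x * K (x - y) = A.indicator 1 x * ∫⁻ z, K z := by
      intro x
      have hm1 : Measurable (fun y => K (x - y)) := hKm.comp (measurable_const.sub measurable_id)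
      rw [lintegral_const_mul _ hm1, lintegral_sub_left_eq_self K x]
    simp_rw [this]
    rw [lintegral_mul_const _ hind, lintegral_indicator_one hA]
  have i2 : ∫⁻ x, ∫⁻ y, A.indicator 1 y * K (x - y) = volume A * ∫⁻ z, K z := by
    rw [lintegral_lintegral_swap]
    · have : ∀ y, ∫⁻ x, A.indicator 1 y * K (x - y) = A.indicator 1 y * ∫⁻ z, K z := by
        intro y
        have hm1 : Measurable (fun x => K (x - y)) := hKm.comp (measurable_id.sub measurable_const)
        rw [lintegral_const_mul _ hm1, lintegral_sub_right_eq_self K y]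
      simp_rw [this]
      rw [lintegral_mul_const _ hind, lintegral_indicator_one hA]
    · exact ((hind.comp measurable_snd).mul hmeas1).aemeasurable
  calc ∫⁻ x, ∫⁻ y, ‖g x - g y‖ₑ ^ p / ‖x - y‖ₑ ^ ((n : ℝ) + σ * p)
      ≤ ∫⁻ x, ∫⁻ y, (A.indicator 1 x * K (x - y) + A.indicator 1 y * K (x - y)) :=
        lintegral_mono (fun x => lintegral_mono (fun y => hpt x y))
    _ = ∫⁻ x, (∫⁻ y, A.indicator 1 x * K (x - y)) + ∫⁻ y, A.indicator 1 y * K (x - y) := by
        refine lintegral_congr (fun x => ?_)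
        exact lintegral_add_left ((hKm.comp (measurable_const.sub measurable_id)).const_mul _) _
    _ = volume A * (∫⁻ z, K z) + volume A * ∫⁻ z, K z := by
        rw [lintegral_add_left, i1, i2]
        refine Measurable.lintegral_prod_right' (f := fun q : V n × V n => A.indicator 1 q.1 * K (q.1 - q.2)) ?_
        exact (hind.comp measurable_fst).mul hmeas1
    _ ≤ _ := by
        rw [← two_mul, hKi]
        gcongr

end M1Aux

open M1Aux

theorem m1 : M1 := by
  intro n d k σ p M hn h0 h1 hp hM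
  have hp0 : 0 < p := by linarith
  set c : ℝ := (cker n σ p).toReal with hc
  have hc0 : 0 ≤ c := ENNReal.toReal_nonneg
  refine ⟨((k + 1) * M) ^ (1 / p) * M + (2 * M * c) ^ (1 / p) * (2 * M), by positivity, ?_⟩
  intro f hf ε hε hε1 hvol hder
  have hsupp : ∀ j x, x ∉ tsupport f → iteratedFDeriv ℝ j f x = 0 := by
    intro j x hx
    by_contra hne
    exact hx (support_iteratedFDeriv_subset j (Function.mem_support.2 hne))
  have hA : MeasurableSet (tsupport f) := (isClosed_tsupport f).measurableSet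
  have hzp : ∀ j : ℕ, ε ^ (1 - (j : ℤ)) = ε ^ (1 - (j : ℝ)) := by
    intro j
    rw [← Real.rpow_intCast]
    push_cast
    rfl
  have hsplit : ((k + 1) * M) ^ (1 / p) * M * ε ^ (1 + n / p - k - σ) +
      (2 * M * c) ^ (1 / p) * (2 * M) * ε ^ (1 + n / p - k - σ) =
      (((k + 1) * M) ^ (1 / p) * M + (2 * M * c) ^ (1 / p) * (2 * M)) * ε ^ (1 + n / p - k - σ) := by ring
  rw [← hsplit, ENNReal.ofReal_add (by positivity) (by positivity)]
  unfold sob
  refine add_le_add ?_ ?_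
  · -- the integer part
    have hj : ∀ j ∈ Finset.range (k + 1), ∫⁻ x, ‖iteratedFDeriv ℝ j f x‖ₑ ^ p ≤
        ENNReal.ofReal (M ^ p * ε ^ ((1 - (k : ℝ)) * p) * (M * ε ^ n)) := by
      intro j hj
      have hjk : j ≤ k := Nat.lt_succ_iff.1 (Finset.mem_range.1 hj)
      have hb : ∀ x, ‖iteratedFDeriv ℝ j f x‖ₑ ^ p ≤
          (tsupport f).indicator (fun _ => ENNReal.ofReal (M ^ p * ε ^ ((1 - (k : ℝ)) * p))) x := by
        intro x
        by_cases hx : x ∈ tsupport f
        · rw [indicator_of_mem hx, enorm_rpow _ _ hp0.le]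
          apply ENNReal.ofReal_le_ofReal
          have h3 := hder j (by omega) x
          rw [hzp] at h3
          have h4 : ε ^ (1 - (j : ℝ)) ≤ ε ^ (1 - (k : ℝ)) := by
            apply Real.rpow_le_rpow_of_exponent_ge hε hε1
            have : (j : ℝ) ≤ k := by exact_mod_cast hjk
            linarith
          have h5 : ‖iteratedFDeriv ℝ j f x‖ ≤ M * ε ^ (1 - (k : ℝ)) :=
            h3.trans (mul_le_mul_of_nonneg_left h4 hM)
          have h6 := Real.rpow_le_rpow (norm_nonneg _) h5 hp0.le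
          rwa [Real.mul_rpow hM (by positivity), ← Real.rpow_mul hε.le] at h6
        · rw [indicator_of_notMem hx, hsupp j x hx]
          simp [hp0]
      calc ∫⁻ x, ‖iteratedFDeriv ℝ j f x‖ₑ ^ p ≤ _ := lintegral_mono hb
        _ = ENNReal.ofReal (M ^ p * ε ^ ((1 - (k : ℝ)) * p)) * volume (tsupport f) := by
            rw [lintegral_indicator_const hA]
        _ ≤ ENNReal.ofReal (M ^ p * ε ^ ((1 - (k : ℝ)) * p)) * ENNReal.ofReal (M * ε ^ n) := by gcongr
        _ = _ := by rw [← ENNReal.ofReal_mul (by positivity)]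
    have hsum : ∑ j ∈ Finset.range (k + 1), ∫⁻ x, ‖iteratedFDeriv ℝ j f x‖ₑ ^ p ≤
        ENNReal.ofReal ((k + 1) * (M ^ p * ε ^ ((1 - (k : ℝ)) * p) * (M * ε ^ n))) := by
      refine (Finset.sum_le_sum hj).trans (le_of_eq ?_)
      rw [Finset.sum_const, Finset.card_range,
        ENNReal.ofReal_mul (p := (k : ℝ) + 1) (by positivity), nsmul_eq_mul]
      congr 1
      rw [ENNReal.ofReal_add (by positivity) (by positivity)]
      simp
    refine (ENNReal.rpow_le_rpow hsum (by positivity)).trans ?_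
    rw [ENNReal.ofReal_rpow_of_nonneg (by positivity) (by positivity)]
    apply ENNReal.ofReal_le_ofReal
    have e : ((k + 1) * (M ^ p * ε ^ ((1 - (k : ℝ)) * p) * (M * ε ^ n))) ^ (1 / p) =
        ((k + 1) * M) ^ (1 / p) * M * ε ^ (1 + n / p - k) := by
      have e1 : ((k : ℝ) + 1) * (M ^ p * ε ^ ((1 - (k : ℝ)) * p) * (M * ε ^ n)) =
          (((k : ℝ) + 1) * M) * M ^ p * ε ^ ((1 - (k : ℝ)) * p + n) := by
        rw [Real.rpow_add hε, Real.rpow_natCast]; ring
      rw [e1, Real.mul_rpow (by positivity) (by positivity), Real.mul_rpow (by positivity) (by positivity),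
        ← Real.rpow_mul hM, ← Real.rpow_mul hε.le, mul_one_div_cancel hp0.ne', Real.rpow_one]
      congr 2
      field_simp
      ring
    rw [e]
    apply mul_le_mul_of_nonneg_left _ (by positivity)
    apply Real.rpow_le_rpow_of_exponent_ge hε hε1
    linarith
  · -- the Gagliardo part
    split_ifs with hs
    · exact zero_le
    have hσ : 0 < σ := lt_of_le_of_ne h0 (Ne.symm hs)
    set B : ℝ := 2 * (M * ε ^ (1 - (k : ℝ))) with hBdef
    have hB : 0 ≤ B := by positivity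
    have hbd : ∀ x, ‖iteratedFDeriv ℝ k f x‖ ≤ M * ε ^ (1 - (k : ℝ)) := by
      intro x
      have := hder k (by omega) x
      rwa [hzp] at this
    have h2 : ∀ x y, ‖iteratedFDeriv ℝ k f x - iteratedFDeriv ℝ k f y‖ ≤ B := by
      intro x y
      refine (norm_sub_le _ _).trans ?_
      rw [hBdef]
      linarith [hbd x, hbd y]
    have hlip : ∀ x y, ‖iteratedFDeriv ℝ k f x - iteratedFDeriv ℝ k f y‖ ≤ B * (‖x - y‖ / ε) := by
      intro x y
      have hd : ∀ z, DifferentiableAt ℝ (iteratedFDeriv ℝ k f) z := by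
        intro z
        exact (hf.differentiable_iteratedFDeriv (m := k) (by exact_mod_cast WithTop.coe_lt_top _)) z
      have hb : ∀ z ∈ (univ : Set (V n)), ‖fderiv ℝ (iteratedFDeriv ℝ k f) z‖ ≤ M * ε ^ (1 - (k : ℝ)) * ε⁻¹ := by
        intro z _
        rw [norm_fderiv_iteratedFDeriv]
        refine (hder (k + 1) le_rfl z).trans (le_of_eq ?_)
        rw [hzp, mul_assoc, ← Real.rpow_neg_one ε, ← Real.rpow_add hε]
        push_cast
        congr 2
        ring
      have h3 := convex_univ.norm_image_sub_le_of_norm_fderiv_le (𝕜 := ℝ) (f := iteratedFDeriv ℝ k f)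
        (fun z _ => hd z) hb (mem_univ y) (mem_univ x)
      refine h3.trans ?_
      rw [hBdef]
      have h4 : 0 ≤ M * ε ^ (1 - (k : ℝ)) * ε⁻¹ * ‖x - y‖ := by positivity
      have h5 : 2 * (M * ε ^ (1 - (k : ℝ))) * (‖x - y‖ / ε) = 2 * (M * ε ^ (1 - (k : ℝ)) * ε⁻¹ * ‖x - y‖) := by
        rw [div_eq_mul_inv]; ring
      rw [h5]
      linarith
    have hG := gagliardo n σ p ε B (M * ε ^ n) hσ hp hε hB (iteratedFDeriv ℝ k f) (tsupport f) hA hvol
      (hsupp k) hlip h2
    have hck : cker n σ p = ENNReal.ofReal c := by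
      rw [hc, ENNReal.ofReal_toReal (cker_lt n σ p hn hσ h1 hp).ne]
    have h22 : ∀ a : ℝ, (2 : ℝ≥0∞) * ENNReal.ofReal a = ENNReal.ofReal (2 * a) := by
      intro a
      rw [ENNReal.ofReal_mul (by norm_num)]
      simp
    rw [hck, ← ENNReal.ofReal_mul (by positivity), ← ENNReal.ofReal_mul (by positivity),
      ← ENNReal.ofReal_mul (by positivity), h22] at hG
    refine (ENNReal.rpow_le_rpow hG (by positivity)).trans ?_
    rw [ENNReal.ofReal_rpow_of_nonneg (by positivity) (by positivity)]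
    apply ENNReal.ofReal_le_ofReal
    apply le_of_eq
    have e1 : 2 * (M * ε ^ n * (B ^ p * (ε ^ (-(σ * p)) * c))) =
        (2 * M * c) * (2 * M) ^ p * ε ^ ((1 - (k : ℝ)) * p + n - σ * p) := by
      have h3 : B ^ p = (2 * M) ^ p * ε ^ ((1 - (k : ℝ)) * p) := by
        rw [hBdef, ← mul_assoc, Real.mul_rpow (by positivity) (by positivity), ← Real.rpow_mul hε.le]
      have h4 : ε ^ ((1 - (k : ℝ)) * p + n - σ * p) = ε ^ ((1 - (k : ℝ)) * p) * ε ^ n * ε ^ (-(σ * p)) := by
        rw [← Real.rpow_natCast ε n, ← Real.rpow_add hε, ← Real.rpow_add hε]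
        congr 1
      rw [h3, h4]; ring
    rw [e1, Real.mul_rpow (by positivity) (by positivity), Real.mul_rpow (by positivity) (by positivity),
      ← Real.rpow_mul (by positivity : (0:ℝ) ≤ 2 * M), ← Real.rpow_mul hε.le, mul_one_div_cancel hp0.ne',
      Real.rpow_one]
    congr 2
    field_simp
    ring

end Pool.Agent.L0h85.DS
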