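import Pool.Agent.L0h85.DS.M1

/-!
# Module M2: the chart estimate
-/

set_option autoImplicit false

open scoped Manifold ContDiff ENNReal Topology
open MeasureTheory Metric Set

namespace Pool.Agent.L0h85.DS

namespace M2Aux

variable {n : ℕ}

theorem st_mem (v : Sph n) : st v ∈ IsManifold.maximalAtlas (𝓡 n) ∞ (Sph n) :=
  IsManifold.subset_maximalAtlas (I := 𝓡 n) ⟨v, rfl⟩

theorem st_source (v : Sph n) : (st v).source = {v}ᶜ := stereographic'_source v

theorem st_target (v : Sph n) : (st v).target = univ := stereographic'_target v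

theorem st_symm_ne (v : Sph n) (y : V n) : (st v).symm y ≠ v := by
  have h := (st v).map_target (x := y) (by rw [st_target]; trivial)
  rw [st_source] at h
  exact h

theorem st_left (v x : Sph n) (hx : x ≠ v) : (st v).symm (st v x) = x :=
  (st v).left_inv (by rw [st_source]; exact hx)

theorem st_right (v : Sph n) (y : V n) : st v ((st v).symm y) = y :=
  (st v).right_inv (by rw [st_target]; trivial)

theorem st_smooth (v : Sph n) : ContMDiffOn (𝓡 n) (𝓡 n) ∞ (st v) {v}ᶜ := by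
  rw [← st_source v]
  exact contMDiffOn_of_mem_maximalAtlas (st_mem v)

theorem st_symm_smooth (v : Sph n) : ContMDiff (𝓡 n) (𝓡 n) ∞ (st v).symm := by
  rw [← contMDiffOn_univ, ← st_target v]
  exact contMDiffOn_symm_of_mem_maximalAtlas (st_mem v)

theorem sg_smooth (v : Sph n) : ContDiff ℝ ∞ (sg v) := by
  have h : ContMDiff (𝓡 n) 𝓘(ℝ, V (n + 1)) ∞ (sg v) := contMDiff_coe_sphere.comp (st_symm_smooth v)
  exact h.contDiff

theorem dsg_smooth (v : Sph n) : ContDiff ℝ ∞ (fderiv ℝ (sg v)) :=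
  (sg_smooth v).fderiv_right (by simp)

/-- the domain of the coordinate change -/
def Om (A : Chart n) (v : Sph n) : Set (V n) := A.e.target ∩ A.e.symm ⁻¹' {v}ᶜ

theorem Om_open (A : Chart n) (v : Sph n) : IsOpen (Om A v) :=
  A.e.isOpen_inter_preimage_symm isOpen_compl_singleton

/-- the coordinate change -/
noncomputable def kap (A : Chart n) (v : Sph n) (z : V n) : V n := st v (A.e.symm z)

theorem kap_smooth (A : Chart n) (v : Sph n) : ContDiffOn ℝ ∞ (kap A v) (Om A v) := by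
  have h1 : ContMDiffOn (𝓡 n) (𝓡 n) ∞ A.e.symm (Om A v) :=
    (contMDiffOn_symm_of_mem_maximalAtlas A.he).mono inter_subset_left
  have h2 : ContMDiffOn (𝓡 n) (𝓡 n) ∞ (kap A v) (Om A v) :=
    (st_smooth v).comp h1 (fun z hz => hz.2)
  exact h2.contDiffOn

/-- the coefficient -/
noncomputable def Bc (A : Chart n) (v : Sph n) (z : V n) : V n →L[ℝ] V A.d :=
  (A.W (A.e.symm z)).comp (fderiv ℝ (sg v) (kap A v z))

theorem Bc_smooth (A : Chart n) (v : Sph n) : ContDiffOn ℝ ∞ (Bc A v) (Om A v) := by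
  have h1 : ContMDiffOn (𝓡 n) (𝓡 n) ∞ A.e.symm (Om A v) :=
    (contMDiffOn_symm_of_mem_maximalAtlas A.he).mono inter_subset_left
  have h2 : ContMDiffOn (𝓡 n) 𝓘(ℝ, V (n + 1) →L[ℝ] V A.d) ∞ (fun z => A.W (A.e.symm z)) (Om A v) :=
    (A.hW.comp_contMDiffOn h1)
  have h3 : ContDiffOn ℝ ∞ (fun z => A.W (A.e.symm z)) (Om A v) := h2.contDiffOn
  exact h3.clm_comp ((dsg_smooth v).comp_contDiffOn (kap_smooth A v))

/-- the compact set which contains the support -/
def Kc (A : Chart n) (v : Sph n) (q : V n) (r : ℝ) : Set (V n) :=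
  A.e '' (tsupport A.W ∩ (st v).symm '' closedBall q r)

theorem Kc_compact (A : Chart n) (v : Sph n) (q : V n) (r : ℝ) : IsCompact (Kc A v q r) := by
  have h1 : IsCompact (tsupport A.W ∩ (st v).symm '' closedBall q r) :=
    ((isCompact_closedBall q r).image (st_symm_smooth v).continuous).inter_left (isClosed_tsupport _)
  exact h1.image_of_continuousOn (A.e.continuousOn.mono (fun x hx => A.hsupp hx.1))

theorem Kc_subset (A : Chart n) (v : Sph n) (q : V n) (r : ℝ) : Kc A v q r ⊆ Om A v := by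
  rintro z ⟨x, ⟨hx, y, hy, hyx⟩, rfl⟩
  have hs := A.hsupp hx
  refine ⟨A.e.map_source hs, ?_⟩
  rw [mem_preimage, A.e.left_inv hs, ← hyx]
  exact st_symm_ne v y

theorem Kc_kap (A : Chart n) (v : Sph n) (q : V n) (r : ℝ) (z : V n) (hz : z ∈ Kc A v q r) :
    kap A v z ∈ closedBall q r := by
  obtain ⟨x, ⟨hx, y, hy, hyx⟩, rfl⟩ := hz
  have hs := A.hsupp hx
  unfold kap
  rw [A.e.left_inv hs, ← hyx, st_right]
  exact hy

/-- the representative of the pushed field on the domain of the coordinate change -/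
theorem rep_eq (A : Chart n) (v : Sph n) (q : V n) (ε : ℝ) (w : V n → V n) (z : V n) (hz : z ∈ Om A v) :
    A.rep (push v q ε w) z = ε • Bc A v z (w (ε⁻¹ • (kap A v z - q))) := by
  have hne : A.e.symm z ≠ v := hz.2
  unfold Chart.rep push Bc kap
  rw [if_pos hz.1, if_neg hne]
  simp

theorem rep_zero (A : Chart n) (v : Sph n) (q : V n) (ε R : ℝ) (hε : 0 < ε) (w : V n → V n)
    (hw : ∀ y, R ≤ ‖y‖ → w y = 0) (z : V n) (hz : z ∉ Kc A v q (ε * R)) :
    A.rep (push v q ε w) z = 0 := by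
  by_contra hne
  apply hz
  have ht : z ∈ A.e.target := by
    by_contra h
    apply hne
    unfold Chart.rep
    rw [if_neg h]
  have hv : A.e.symm z ≠ v := by
    intro h
    apply hne
    unfold Chart.rep push
    rw [if_pos ht, if_pos h]
    simp
  rw [rep_eq A v q ε w z ⟨ht, hv⟩] at hne
  refine ⟨A.e.symm z, ⟨?_, kap A v z, ?_, ?_⟩, A.e.right_inv ht⟩
  · apply subset_tsupport
    intro h
    apply hne
    unfold Bc
    rw [h]
    simp
  · rw [mem_closedBall, dist_eq_norm]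
    by_contra h
    push Not at h
    apply hne
    rw [hw, map_zero, smul_zero]
    rw [norm_smul, norm_inv, Real.norm_of_nonneg hε.le, inv_mul_eq_div, le_div_iff₀ hε]
    linarith
  · unfold kap
    exact st_left v _ hv

theorem Kc_mono (A : Chart n) (v : Sph n) (q q' : V n) (r r' : ℝ) (h : closedBall q r ⊆ closedBall q' r') :
    Kc A v q r ⊆ Kc A v q' r' := by
  unfold Kc
  gcongr

/-- a bound of all derivatives on a compact subset of an open set -/
theorem exists_bound {E F : Type*} [NormedAddCommGroup E] [NormedSpace ℝ E] [NormedAddCommGroup F] [NormedSpace ℝ F]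
    (U K : Set E) (hU : IsOpen U) (hK : IsCompact K) (hKU : K ⊆ U) (f : E → F) (hf : ContDiffOn ℝ ∞ f U) (m : ℕ) :
    ∃ C : ℝ, 1 ≤ C ∧ ∀ j ≤ m, ∀ z ∈ K, ‖iteratedFDerivWithin ℝ j f U z‖ ≤ C := by
  have h1 : ∀ j : ℕ, ∃ C : ℝ, ∀ z ∈ K, ‖iteratedFDerivWithin ℝ j f U z‖ ≤ C := by
    intro j
    have hc : ContinuousOn (iteratedFDerivWithin ℝ j f U) K :=
      (hf.continuousOn_iteratedFDerivWithin (m := j) (by exact_mod_cast le_top) hU.uniqueDiffOn).mono hKU
    exact hK.exists_bound_of_continuousOn hc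
  choose C hC using h1
  refine ⟨1 + ∑ j ∈ Finset.range (m + 1), |C j|, by
    have : 0 ≤ ∑ j ∈ Finset.range (m + 1), |C j| := Finset.sum_nonneg (fun _ _ => abs_nonneg _)
    linarith, ?_⟩
  intro j hj z hz
  have h2 : |C j| ≤ ∑ j ∈ Finset.range (m + 1), |C j| :=
    Finset.single_le_sum (f := fun j => |C j|) (fun _ _ => abs_nonneg _) (Finset.mem_range.2 (by omega))
  linarith [hC j z hz, le_abs_self (C j)]

theorem rep_smooth (A : Chart n) (v : Sph n) (q : V n) (ε R : ℝ) (hε : 0 < ε) (w : V n → V n)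
    (hws : ContDiff ℝ ∞ w) (hw : ∀ y, R ≤ ‖y‖ → w y = 0) : ContDiff ℝ ∞ (A.rep (push v q ε w)) := by
  rw [contDiff_iff_contDiffAt]
  intro z
  by_cases hz : z ∈ Om A v
  · have h1 : ContDiffOn ℝ ∞ (fun z => ε • Bc A v z (w (ε⁻¹ • (kap A v z - q)))) (Om A v) := by
      have h2 : ContDiffOn ℝ ∞ (fun z => ε⁻¹ • (kap A v z - q)) (Om A v) :=
        ((kap_smooth A v).sub contDiffOn_const).const_smul ε⁻¹
      exact ((Bc_smooth A v).clm_apply (hws.comp_contDiffOn h2)).const_smul ε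
    exact (h1.congr (fun z hz => rep_eq A v q ε w z hz)).contDiffAt ((Om_open A v).mem_nhds hz)
  · have hz2 : z ∉ Kc A v q (ε * R) := fun h => hz (Kc_subset A v q (ε * R) h)
    have hop : IsOpen (Kc A v q (ε * R))ᶜ := (Kc_compact A v q (ε * R)).isClosed.isOpen_compl
    have hev : A.rep (push v q ε w) =ᶠ[𝓝 z] fun _ => 0 := by
      filter_upwards [hop.mem_nhds hz2] with y hy
      exact rep_zero A v q ε R hε w hw y hy
    exact contDiffAt_const.congr_of_eventuallyEq hev

theorem wt_bound (m : ℕ) (M ε : ℝ) (hε : 0 < ε) (hε1 : ε ≤ 1) (hM : 0 ≤ M) (w : V n → V n)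
    (hws : ContDiff ℝ ∞ w) (hd : ∀ j ≤ m, ∀ y, ‖iteratedFDeriv ℝ j w y‖ ≤ M) (q y : V n) (i j : ℕ) (hij : i ≤ j)
    (hj : j ≤ m) :
    ‖iteratedFDeriv ℝ i (fun y => w (ε⁻¹ • (y - q))) y‖ ≤ M * (ε⁻¹) ^ j := by
  have e1 : iteratedFDeriv ℝ i (fun y => w (ε⁻¹ • (y - q))) y =
      (ε⁻¹) ^ i • iteratedFDeriv ℝ i w (ε⁻¹ • (y - q)) := by
    have h1 := iteratedFDeriv_comp_sub (𝕜 := ℝ) (f := fun y => w (ε⁻¹ • y)) i q
    rw [h1 y]
    have h3 := iteratedFDeriv_comp_const_smul (𝕜 := ℝ) (i := i) (f := w) ε⁻¹ (hws.of_le (by exact_mod_cast le_top))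
    exact congrFun h3 (y - q)
  rw [e1, norm_smul, norm_pow, norm_inv, Real.norm_of_nonneg hε.le, mul_comm]
  have h4 := hd i (hij.trans hj) (ε⁻¹ • (y - q))
  have h5 : (1 : ℝ) ≤ ε⁻¹ := (one_le_inv₀ hε).2 hε1
  exact mul_le_mul h4 (pow_le_pow_right₀ h5 hij) (by positivity) hM

/-- the bound of the derivatives of the representative -/
theorem der_bound (A : Chart n) (v : Sph n) (m : ℕ) (R : ℝ) (hR : 0 ≤ R) :
    ∃ C : ℝ, 0 ≤ C ∧ ∀ (M : ℝ) (q : V n) (ε : ℝ) (w : V n → V n), 0 ≤ M → ‖q‖ ≤ R → 0 < ε → ε ≤ 1 →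
      ContDiff ℝ ∞ w → (∀ y, R ≤ ‖y‖ → w y = 0) → (∀ j ≤ m, ∀ y, ‖iteratedFDeriv ℝ j w y‖ ≤ M) →
      ∀ j ≤ m, ∀ z, ‖iteratedFDeriv ℝ j (A.rep (push v q ε w)) z‖ ≤ C * M * ε ^ (1 - (j : ℤ)) := by
  set K0 := Kc A v 0 (2 * R) with hK0
  obtain ⟨D, hD1, hD⟩ := exists_bound (Om A v) K0 (Om_open A v) (Kc_compact A v 0 (2 * R))
    (Kc_subset A v 0 (2 * R)) (kap A v) (kap_smooth A v) m
  obtain ⟨C, hC1, hC⟩ := exists_bound (Om A v) K0 (Om_open A v) (Kc_compact A v 0 (2 * R))
    (Kc_subset A v 0 (2 * R)) (Bc A v) (Bc_smooth A v) m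
  refine ⟨2 ^ m * C * (m.factorial * D ^ m), by positivity, ?_⟩
  intro M q ε w hM hq hε hε1 hws hw hd j hj z
  have hrhs : 0 ≤ 2 ^ m * C * (m.factorial * D ^ m) * M * ε ^ (1 - (j : ℤ)) := by positivity
  by_cases hz : z ∈ Kc A v q (ε * R)
  swap
  · have hop : IsOpen (Kc A v q (ε * R))ᶜ := (Kc_compact A v q (ε * R)).isClosed.isOpen_compl
    have hev : A.rep (push v q ε w) =ᶠ[𝓝 z] fun _ => 0 := by
      filter_upwards [hop.mem_nhds hz] with y hy
      exact rep_zero A v q ε R hε w hw y hy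
    have h0 := (hev.iteratedFDeriv ℝ j).self_of_nhds
    rw [h0]
    have : iteratedFDeriv ℝ j (fun _ : V n => (0 : V A.d)) z = 0 := by
      have := iteratedFDeriv_fun_zero (𝕜 := ℝ) (E := V n) (F := V A.d) (n := j)
      exact congrFun this z
    rw [this, norm_zero]
    exact hrhs
  · have hsub : closedBall q (ε * R) ⊆ closedBall (0 : V n) (2 * R) := by
      intro y hy
      rw [mem_closedBall, dist_eq_norm] at hy ⊢
      rw [sub_zero]
      have h1 : ‖y‖ ≤ ‖y - q‖ + ‖q‖ := by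
        have := norm_add_le (y - q) q
        rwa [sub_add_cancel] at this
      have h2 : ε * R ≤ R := by nlinarith
      linarith
    have hz0 : z ∈ K0 := Kc_mono A v q 0 _ _ hsub hz
    have hzO : z ∈ Om A v := Kc_subset A v q _ hz
    have hU : UniqueDiffOn ℝ (Om A v) := (Om_open A v).uniqueDiffOn
    have hop := iteratedFDerivWithin_of_isOpen (𝕜 := ℝ) (f := A.rep (push v q ε w)) j (Om_open A v) hzO
    rw [← hop]
    set wt : V n → V n := fun y => w (ε⁻¹ • (y - q)) with hwt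
    have hwts0 : ContDiff ℝ ∞ (fun y : V n => ε⁻¹ • (y - q)) :=
      (contDiff_id.sub contDiff_const).const_smul ε⁻¹
    have hwts : ContDiff ℝ ∞ wt := hws.comp hwts0
    have hcomp : ContDiffOn ℝ ∞ (wt ∘ kap A v) (Om A v) := hwts.comp_contDiffOn (kap_smooth A v)
    have hcg : EqOn (A.rep (push v q ε w)) (ε • (fun z : V n => Bc A v z ((wt ∘ kap A v) z))) (Om A v) :=
      fun y hy => rep_eq A v q ε w y hy
    rw [iteratedFDerivWithin_congr hcg hzO j]
    have hprod : ContDiffOn ℝ ∞ (fun z => Bc A v z ((wt ∘ kap A v) z)) (Om A v) :=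
      (Bc_smooth A v).clm_apply hcomp
    rw [iteratedFDerivWithin_const_smul_apply ((hprod z hzO).of_le (by exact_mod_cast le_top)) hU hzO,
      norm_smul, Real.norm_of_nonneg hε.le]
    have hp := norm_iteratedFDerivWithin_clm_apply (𝕜 := ℝ) (Bc_smooth A v) hcomp hU hzO (n := j)
      (by exact_mod_cast le_top)
    have hw2 : ∀ i ≤ j, ‖iteratedFDerivWithin ℝ i (wt ∘ kap A v) (Om A v) z‖ ≤
        m.factorial * (M * (ε⁻¹) ^ j) * D ^ m := by
      intro i hi
      have h1 := norm_iteratedFDerivWithin_comp_le (𝕜 := ℝ) (g := wt) (f := kap A v) (n := i) (s := Om A v)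
        (t := univ) (x := z) (N := ∞) hwts.contDiffOn (kap_smooth A v) (by exact_mod_cast le_top)
        uniqueDiffOn_univ hU (mapsTo_univ _ _) hzO (C := M * (ε⁻¹) ^ j) (D := D)
        (fun l hl => by
          rw [iteratedFDerivWithin_univ]
          exact wt_bound m M ε hε hε1 hM w hws hd q _ l j (hl.trans hi) hj)
        (fun l hl1 hl => (hD l (hl.trans (hi.trans hj)) z hz0).trans (le_self_pow₀ hD1 (by omega)))
      refine h1.trans ?_
      have h2 : (i.factorial : ℝ) ≤ m.factorial := by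
        exact_mod_cast Nat.factorial_le (hi.trans hj)
      have h3 : D ^ i ≤ D ^ m := pow_le_pow_right₀ hD1 (hi.trans hj)
      gcongr
    have hp2 : ‖iteratedFDerivWithin ℝ j (fun z => Bc A v z ((wt ∘ kap A v) z)) (Om A v) z‖ ≤
        2 ^ j * (C * (m.factorial * (M * (ε⁻¹) ^ j) * D ^ m)) := by
      refine hp.trans ?_
      have h1 : ∀ i ∈ Finset.range (j + 1), (j.choose i : ℝ) * ‖iteratedFDerivWithin ℝ i (Bc A v) (Om A v) z‖ *
          ‖iteratedFDerivWithin ℝ (j - i) (wt ∘ kap A v) (Om A v) z‖ ≤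
          (j.choose i : ℝ) * (C * (m.factorial * (M * (ε⁻¹) ^ j) * D ^ m)) := by
        intro i hi
        have hij : i ≤ j := Nat.lt_succ_iff.1 (Finset.mem_range.1 hi)
        rw [mul_assoc]
        apply mul_le_mul_of_nonneg_left _ (by positivity)
        exact mul_le_mul (hC i (hij.trans hj) z hz0) (hw2 (j - i) (by omega)) (norm_nonneg _) (by linarith)
      refine (Finset.sum_le_sum h1).trans (le_of_eq ?_)
      rw [← Finset.sum_mul]
      congr 1
      have := Nat.sum_range_choose j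
      exact_mod_cast this
    have h2j : (2 : ℝ) ^ j ≤ 2 ^ m := pow_le_pow_right₀ (by norm_num) hj
    have hez : ε ^ (1 - (j : ℤ)) = ε * (ε⁻¹) ^ j := by
      rw [zpow_sub₀ hε.ne', zpow_one, zpow_natCast, inv_pow, div_eq_mul_inv]
    rw [hez]
    calc ε * ‖iteratedFDerivWithin ℝ j (fun z => Bc A v z ((wt ∘ kap A v) z)) (Om A v) z‖
        ≤ ε * (2 ^ m * (C * (m.factorial * (M * (ε⁻¹) ^ j) * D ^ m))) := by
          refine mul_le_mul_of_nonneg_left (hp2.trans ?_) hε.le
          apply mul_le_mul_of_nonneg_right h2j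
          positivity
      _ = 2 ^ m * C * (m.factorial * D ^ m) * M * (ε * (ε⁻¹) ^ j) := by ring

/-- the volume of the support -/
theorem vol_bound (A : Chart n) (v : Sph n) (R : ℝ) (hR : 0 ≤ R) :
    ∃ C : ℝ, 0 ≤ C ∧ ∀ (q : V n) (ε : ℝ), ‖q‖ ≤ R → 0 < ε → ε ≤ 1 →
      volume (Kc A v q (ε * R)) ≤ ENNReal.ofReal (C * ε ^ n) := by
  -- the inverse coordinate change
  set F : V n → V n := fun y => A.e ((st v).symm y) with hF
  set U : Set (V n) := (st v).symm ⁻¹' A.e.source with hU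
  have hUo : IsOpen U := A.e.open_source.preimage (st_symm_smooth v).continuous
  have hFs : ContDiffOn ℝ ∞ F U := by
    have h1 : ContMDiffOn (𝓡 n) (𝓡 n) ∞ F U :=
      (contMDiffOn_of_mem_maximalAtlas A.he).comp (st_symm_smooth v).contMDiffOn (fun y hy => hy)
    exact h1.contDiffOn
  set S : V n → ℝ → Set (V n) := fun q r => closedBall q r ∩ (st v).symm ⁻¹' tsupport A.W with hS
  have hSU : ∀ q r, S q r ⊆ U := fun q r y hy => A.hsupp hy.2
  have hSc : ∀ q r, IsCompact (S q r) := fun q r =>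
    (isCompact_closedBall q r).inter_right ((isClosed_tsupport _).preimage (st_symm_smooth v).continuous)
  have hK : ∀ q r, Kc A v q r ⊆ F '' S q r := by
    rintro q r z ⟨x, ⟨hx, y, hy, hyx⟩, rfl⟩
    refine ⟨y, ⟨hy, ?_⟩, ?_⟩
    · rw [mem_preimage, hyx]; exact hx
    · rw [hF]; simp only; rw [hyx]
  have hdet : ContinuousOn (fun y => |(fderiv ℝ F y).det|) U := by
    have h1 : ContinuousOn (fderiv ℝ F) U :=
      hFs.continuousOn_fderiv_of_isOpen hUo (by exact_mod_cast le_top)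
    exact (ContinuousLinearMap.continuous_det.comp_continuousOn h1).abs
  obtain ⟨D, hD⟩ := (hSc 0 (2 * R)).exists_bound_of_continuousOn (hdet.mono (hSU 0 (2 * R)))
  set b : ℝ := (volume (ball (0 : V n) 1)).toReal with hb
  refine ⟨|D| * (R ^ n * b), by positivity, ?_⟩
  intro q ε hq hε hε1
  have hsub : S q (ε * R) ⊆ S 0 (2 * R) := by
    rintro y ⟨hy, hy2⟩
    refine ⟨?_, hy2⟩
    rw [mem_closedBall, dist_eq_norm] at hy ⊢
    rw [sub_zero]
    have h1 : ‖y‖ ≤ ‖y - q‖ + ‖q‖ := by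
      have := norm_add_le (y - q) q
      rwa [sub_add_cancel] at this
    have h2 : ε * R ≤ R := by nlinarith
    linarith
  calc volume (Kc A v q (ε * R)) ≤ volume (F '' S q (ε * R)) := measure_mono (hK q _)
    _ ≤ ∫⁻ y in S q (ε * R), ENNReal.ofReal |(fderiv ℝ F y).det| := by
        refine addHaar_image_le_lintegral_abs_det_fderiv volume (hSc q _).measurableSet ?_
        intro y hy
        have h1 : DifferentiableAt ℝ F y :=
          (hFs.contDiffAt (hUo.mem_nhds (hSU q _ hy))).differentiableAt (by simp)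
        exact h1.hasFDerivAt.hasFDerivWithinAt
    _ ≤ ∫⁻ y in S q (ε * R), ENNReal.ofReal |D| := by
        refine setLIntegral_mono measurable_const ?_
        intro y hy
        apply ENNReal.ofReal_le_ofReal
        have h1 := hD y (hsub hy)
        rw [Real.norm_eq_abs, abs_abs] at h1
        exact h1.trans (le_abs_self D)
    _ = ENNReal.ofReal |D| * volume (S q (ε * R)) := by rw [setLIntegral_const]
    _ ≤ ENNReal.ofReal |D| * volume (closedBall q (ε * R)) := by
        gcongr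
        exact inter_subset_left
    _ = ENNReal.ofReal |D| * (ENNReal.ofReal ((ε * R) ^ n) * ENNReal.ofReal b) := by
        rw [Measure.addHaar_closedBall volume q (by positivity), hb,
          ENNReal.ofReal_toReal measure_ball_lt_top.ne]
        simp
    _ = ENNReal.ofReal (|D| * (R ^ n * b) * ε ^ n) := by
        rw [← ENNReal.ofReal_mul (by positivity), ← ENNReal.ofReal_mul (by positivity)]
        congr 1
        ring

end M2Aux

open M2Aux

theorem m2_of (h1 : M1) : M2 := by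
  intro n A v k σ p M R hn h0 h1' hp hM hR
  obtain ⟨C1, hC1, hder⟩ := der_bound A v (k + 1) R hR
  obtain ⟨C2, hC2, hvol⟩ := vol_bound A v R hR
  obtain ⟨C, hC0, hC⟩ := h1 n A.d k σ p (C1 * M + C2) hn h0 h1' hp (by positivity)
  refine ⟨C, hC0, ?_⟩
  intro q ε w hq hε hε1 hws hw hd
  refine hC _ (rep_smooth A v q ε R hε w hws hw) ε hε hε1 ?_ ?_
  · have hsub : tsupport (A.rep (push v q ε w)) ⊆ Kc A v q (ε * R) := by
      refine closure_minimal ?_ (Kc_compact A v q (ε * R)).isClosed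
      intro z hz
      by_contra h
      exact hz (rep_zero A v q ε R hε w hw z h)
    refine (measure_mono hsub).trans ((hvol q ε hq hε hε1).trans ?_)
    apply ENNReal.ofReal_le_ofReal
    have : 0 ≤ C1 * M := by positivity
    have h2 : 0 < ε ^ n := by positivity
    nlinarith
  · intro j hj z
    refine (hder M q ε w hM hq hε hε1 hws hw hd j hj z).trans ?_
    have h2 : 0 < ε ^ (1 - (j : ℤ)) := by positivity
    nlinarith

theorem m2 : M2 := m2_of m1

end Pool.Agent.L0h85.DS
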