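import Pool.Agent.L0h85.DS.M7

/-! # M3: transplantation -/

set_option autoImplicit false

open scoped Manifold ContDiff ENNReal Topology
open MeasureTheory Metric Set

namespace Pool.Agent.L0h85.DS

variable {n : ℕ}

open Classical in
/-- the transplanted map -/
noncomputable def trans (v : Sph n) (γ : ℝ → V n → V n) (t : ℝ) (x : Sph n) : Sph n :=
  if x = v then v else (st v).symm (γ t (st v x))

theorem trans_v (v : Sph n) (γ : ℝ → V n → V n) (t : ℝ) : trans v γ t v = v := by simp [trans]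

theorem trans_symm (v : Sph n) (γ : ℝ → V n → V n) (t : ℝ) (y : V n) :
    trans v γ t ((st v).symm y) = (st v).symm (γ t y) := by
  unfold trans
  rw [if_neg (st_symm_ne v y), st_right]

theorem trans_smooth (v : Sph n) (γ : ℝ → V n → V n) (hγ : ContDiff ℝ ∞ (fun q : ℝ × V n => γ q.1 q.2)) (R : ℝ)
    (hR : ∀ t y, R ≤ ‖y‖ → γ t y = y) :
    ContMDiff (𝓘(ℝ, ℝ).prod (𝓡 n)) (𝓡 n) ∞ (fun q : ℝ × Sph n => trans v γ q.1 q.2) := by
  rintro ⟨t, x⟩
  by_cases hx : x = v
  · -- identity near the pole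
    set K : Set (Sph n) := (st v).symm '' closedBall (0 : V n) |R| with hK
    have hKc : IsCompact K := (isCompact_closedBall _ _).image (contMDiff_st_symm v).continuous
    have hvK : x ∉ K := by
      rintro ⟨y, _, h⟩
      rw [hx] at h
      exact st_symm_ne v y h
    have hev : (fun q : ℝ × Sph n => trans v γ q.1 q.2) =ᶠ[𝓝 (t, x)] fun q => q.2 := by
      have h1 : ∀ᶠ z in 𝓝 x, z ∉ K := hKc.isClosed.isOpen_compl.mem_nhds hvK
      have h2 : ∀ᶠ q : ℝ × Sph n in 𝓝 (t, x), q.2 ∉ K := by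
        rw [nhds_prod_eq]
        exact Filter.Eventually.prod_inr h1 _
      filter_upwards [h2] with q hq
      by_cases hq' : q.2 = v
      · rw [hq', trans_v]
      · unfold trans
        rw [if_neg hq']
        have h3 : |R| < ‖st v q.2‖ := by
          by_contra h
          push Not at h
          exact hq ⟨st v q.2, by simpa [mem_closedBall, dist_zero_right] using h, st_left v hq'⟩
        rw [hR _ _ ((le_abs_self R).trans h3.le), st_left v hq']
    exact contMDiffAt_snd.congr_of_eventuallyEq hev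
  · have hopen : IsOpen {q : ℝ × Sph n | q.2 ≠ v} := isOpen_ne.preimage continuous_snd
    have hmem : {q : ℝ × Sph n | q.2 ≠ v} ∈ 𝓝 (t, x) := hopen.mem_nhds hx
    have hev : (fun q : ℝ × Sph n => trans v γ q.1 q.2) =ᶠ[𝓝 (t, x)] fun q => (st v).symm (γ q.1 (st v q.2)) := by
      filter_upwards [hmem] with q hq
      unfold trans
      rw [if_neg hq]
    have h1 : ContMDiffAt (𝓘(ℝ, ℝ).prod (𝓡 n)) (𝓡 n) ∞ (fun q : ℝ × Sph n => st v q.2) (t, x) := by
      have h2 : ContMDiffAt (𝓡 n) (𝓡 n) ∞ (st v : Sph n → V n) x :=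
        (contMDiffOn_st v).contMDiffAt (isOpen_compl_singleton.mem_nhds hx)
      exact ContMDiffAt.comp (t, x) h2 contMDiffAt_snd
    have h3 : ContMDiffAt (𝓘(ℝ, ℝ).prod (𝓡 n)) (𝓘(ℝ, ℝ).prod (𝓡 n)) ∞ (fun q : ℝ × Sph n => (q.1, st v q.2)) (t, x) :=
      contMDiffAt_fst.prodMk h1
    have h4 : ContMDiff (𝓘(ℝ, ℝ).prod (𝓡 n)) (𝓡 n) ∞ (fun q : ℝ × V n => γ q.1 q.2) := by
      have := hγ.contMDiff
      rw [modelWithCornersSelf_prod, ← chartedSpaceSelf_prod] at this
      exact this
    have h5 := (((contMDiff_st_symm v).comp h4).contMDiffAt (x := (t, st v x))).comp (t, x) h3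
    exact h5.congr_of_eventuallyEq hev

theorem trans_trans (v : Sph n) (γ δ : ℝ → V n → V n) (h : ∀ t y, δ t (γ t y) = y) (t : ℝ) (x : Sph n) :
    trans v δ t (trans v γ t x) = x := by
  by_cases hx : x = v
  · rw [hx, trans_v, trans_v]
  · rw [← st_left v hx, trans_symm, trans_symm, h]

theorem differentiable_sg (v : Sph n) : Differentiable ℝ (sg v) := by
  have h : ContMDiff (𝓡 n) 𝓘(ℝ, V (n + 1)) ∞ (sg v) := contMDiff_coe_sphere.comp (contMDiff_st_symm v)
  exact h.contDiff.differentiable (by simp)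

theorem m3 : M3 := by
  intro n v g _
  have hδR : ∀ t y, g.R ≤ ‖y‖ → g.δ t y = y := g.hR'
  have hin : ∀ t : ℝ, ContMDiff (𝓡 n) (𝓘(ℝ, ℝ).prod (𝓡 n)) ∞ (fun x : Sph n => (t, x)) := fun t =>
    contMDiff_const.prodMk contMDiff_id
  let Γ : ℝ → Dif n := fun t =>
    { toEquiv :=
        { toFun := trans v g.γ t
          invFun := trans v g.δ t
          left_inv := fun x => trans_trans v g.γ g.δ g.left t x
          right_inv := fun x => trans_trans v g.δ g.γ g.right t x }
      contMDiff_toFun := (trans_smooth v g.γ g.hγ g.R g.hR).comp (hin t)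
      contMDiff_invFun := (trans_smooth v g.δ g.hδ g.R hδR).comp (hin t) }
  refine ⟨Γ, ⟨trans_smooth v g.γ g.hγ g.R g.hR, trans_smooth v g.δ g.hδ g.R hδR⟩, fun t => trans_v v g.γ t,
    fun t y => trans_symm v g.γ t y, fun t y => trans_symm v g.δ t y, ?_⟩
  intro t x
  unfold push vel
  by_cases hx : x = v
  · rw [if_pos hx]
    have : (fun s => (((Γ s) ((Γ t).symm x) : Sph n) : V (n + 1))) = fun _ => (v : V (n + 1)) := by
      funext s
      show ((trans v g.γ s (trans v g.δ t x) : Sph n) : V (n + 1)) = _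
      rw [hx, trans_v, trans_v]
    rw [this, deriv_const]
  · rw [if_neg hx]
    set y := st v x with hy
    have hxy : x = (st v).symm y := (st_left v hx).symm
    have h1 : (fun s => (((Γ s) ((Γ t).symm x) : Sph n) : V (n + 1))) = fun s => sg v (g.γ s (g.δ t y)) := by
      funext s
      show ((trans v g.γ s (trans v g.δ t x) : Sph n) : V (n + 1)) = _
      rw [hxy, trans_symm, trans_symm]
      rfl
    have h2 : HasDerivAt (fun s => g.γ s (g.δ t y)) (g.w t y) t := (g.diff t (g.δ t y)).hasDerivAt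
    have h3 : HasFDerivAt (sg v) (fderiv ℝ (sg v) y) (g.γ t (g.δ t y)) := by
      rw [g.right]
      exact (differentiable_sg v y).hasFDerivAt
    have h5 : HasDerivAt (sg v ∘ fun s => g.γ s (g.δ t y)) (fderiv ℝ (sg v) y (g.w t y)) t :=
      HasFDerivAt.comp_hasDerivAt t h3 h2
    have h4 : deriv (fun s => sg v (g.γ s (g.δ t y))) t = fderiv ℝ (sg v) y (g.w t y) := h5.deriv
    rw [h1, h4]
    simp

end Pool.Agent.L0h85.DS
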