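import Pool.Agent.L0h85.DS.Mods

/-! # M4: small perturbations of the identity -/

set_option autoImplicit false

open scoped Manifold ContDiff ENNReal Topology
open MeasureTheory Metric Set

namespace Pool.Agent.L0h85.DS

theorem m4 : M4 := by
  intro n w R hw hR hD
  have hlip : ∀ t y z, ‖w t y - w t z‖ ≤ 1 / 2 * ‖y - z‖ := by
    intro t y z
    have hd : ∀ x ∈ (univ : Set (V n)), DifferentiableAt ℝ (w t) x := fun x _ =>
      ((hw.comp (contDiff_const.prodMk contDiff_id)).differentiable (by simp) : Differentiable ℝ (w t)) x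
    exact convex_univ.norm_image_sub_le_of_norm_fderiv_le hd (fun x _ => hD t x) (mem_univ _) (mem_univ _)
  -- bijectivity
  have hex : ∀ t z, ∃ y, y + w t y = z := by
    intro t z
    have hc : ContractingWith (1 / 2 : NNReal) (fun y => z - w t y) := by
      refine ⟨by rw [← NNReal.coe_lt_coe]; norm_num, LipschitzWith.of_dist_le_mul fun a b => ?_⟩
      rw [dist_eq_norm, dist_eq_norm]
      have : z - w t a - (z - w t b) = w t b - w t a := by abel
      rw [this]
      have := hlip t b a
      rw [norm_sub_rev b a] at this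
      simpa using this
    refine ⟨hc.fixedPoint, ?_⟩
    have h1 : z - w t hc.fixedPoint = hc.fixedPoint := hc.fixedPoint_isFixedPt
    nth_rewrite 1 [← h1]
    abel
  have hinj : ∀ t y z, y + w t y = z + w t z → y = z := by
    intro t y z h
    have h1 : y - z = w t z - w t y := by
      have : y - z - (w t z - w t y) = (y + w t y) - (z + w t z) := by abel
      rw [← sub_eq_zero, this, h, sub_self]
    have h2 : ‖y - z‖ ≤ 1 / 2 * ‖y - z‖ := by
      conv_lhs => rw [h1]
      rw [norm_sub_rev y z]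
      exact hlip t z y
    have h3 : ‖y - z‖ = 0 := by
      have := norm_nonneg (y - z)
      linarith
    exact sub_eq_zero.mp (norm_eq_zero.mp h3)
  choose δ hδ using hex
  have hH : ContDiff ℝ ∞ (fun q : ℝ × V n => (q.1, q.2 + w q.1 q.2)) :=
    contDiff_fst.prodMk (contDiff_snd.add hw)
  have hHinj : ∀ a b : ℝ × V n, (a.1, a.2 + w a.1 a.2) = (b.1, b.2 + w b.1 b.2) → a = b := by
    rintro ⟨t, y⟩ ⟨s, z⟩ h
    simp only [Prod.mk.injEq] at h
    obtain ⟨h1, h2⟩ := h
    subst h1
    rw [hinj t y z h2]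
  have hδs : ContDiff ℝ ∞ (fun q : ℝ × V n => δ q.1 q.2) := by
    rw [contDiff_iff_contDiffAt]
    rintro ⟨t, z⟩
    set H : ℝ × V n → ℝ × V n := fun q => (q.1, q.2 + w q.1 q.2) with hHdef
    set a : ℝ × V n := (t, δ t z) with ha
    have hHa : H a = (t, z) := by
      show (t, δ t z + w t (δ t z)) = (t, z)
      rw [hδ]
    have hdW : DifferentiableAt ℝ (fun q : ℝ × V n => w q.1 q.2) a := hw.differentiable (by simp) a
    have hder : HasFDerivAt H ((ContinuousLinearMap.fst ℝ ℝ (V n)).prod
        (ContinuousLinearMap.snd ℝ ℝ (V n) + fderiv ℝ (fun q : ℝ × V n => w q.1 q.2) a)) a :=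
      (hasFDerivAt_fst).prodMk (hasFDerivAt_snd.add hdW.hasFDerivAt)
    set L := (ContinuousLinearMap.fst ℝ ℝ (V n)).prod
        (ContinuousLinearMap.snd ℝ ℝ (V n) + fderiv ℝ (fun q : ℝ × V n => w q.1 q.2) a) with hL
    have hLinj : Function.Injective L := by
      rw [injective_iff_map_eq_zero]
      rintro ⟨s, u⟩ h
      simp only [hL, ContinuousLinearMap.prod_apply, ContinuousLinearMap.coe_fst', add_apply,
        ContinuousLinearMap.coe_snd', Prod.mk_eq_zero] at h
      obtain ⟨h1, h2⟩ := h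
      subst h1
      have h3 : fderiv ℝ (fun q : ℝ × V n => w q.1 q.2) a (0, u) = fderiv ℝ (w t) (δ t z) u := by
        have h4 : HasFDerivAt (fun y : V n => (t, y)) (ContinuousLinearMap.inr ℝ ℝ (V n)) (δ t z) :=
          hasFDerivAt_prodMk_right t (δ t z)
        have h5 : HasFDerivAt (w t) ((fderiv ℝ (fun q : ℝ × V n => w q.1 q.2) a).comp (ContinuousLinearMap.inr ℝ ℝ (V n)))
            (δ t z) := hdW.hasFDerivAt.comp (δ t z) h4
        rw [h5.fderiv]
        simp
      rw [h3] at h2
      have h6 : ‖fderiv ℝ (w t) (δ t z) u‖ ≤ 1 / 2 * ‖u‖ :=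
        (ContinuousLinearMap.le_opNorm _ _).trans (by gcongr; exact hD t _)
      have h7 : u = -(fderiv ℝ (w t) (δ t z) u) := eq_neg_of_add_eq_zero_left h2
      have h8 : ‖u‖ = ‖fderiv ℝ (w t) (δ t z) u‖ := by
        conv_lhs => rw [h7]
        rw [norm_neg]
      have h9 : ‖u‖ = 0 := by
        have := norm_nonneg u
        linarith
      rw [norm_eq_zero.mp h9]
      rfl
    let e : (ℝ × V n) ≃L[ℝ] (ℝ × V n) := (LinearEquiv.ofInjectiveEndo (L : (ℝ × V n) →ₗ[ℝ] (ℝ × V n)) hLinj).toContinuousLinearEquiv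
    have he : (e : (ℝ × V n) →L[ℝ] (ℝ × V n)) = L := ContinuousLinearMap.ext fun x => rfl
    have hder' : HasFDerivAt H (e : (ℝ × V n) →L[ℝ] (ℝ × V n)) a := by rw [he]; exact hder
    have hHc : ContDiffAt ℝ ∞ H a := hH.contDiffAt
    have hn0 : (∞ : WithTop ℕ∞) ≠ 0 := by simp
    have hloc : ContDiffAt ℝ ∞ (hHc.localInverse hder' hn0) (H a) := hHc.to_localInverse hder' hn0
    have hright : ∀ᶠ b in 𝓝 (H a), H (hHc.localInverse hder' hn0 b) = b :=
      (hHc.hasStrictFDerivAt' hder' hn0).eventually_right_inverse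
    have heq : (fun q : ℝ × V n => δ q.1 q.2) =ᶠ[𝓝 (H a)] fun b => (hHc.localInverse hder' hn0 b).2 := by
      filter_upwards [hright] with b hb
      have h1 : H (b.1, δ b.1 b.2) = b := by
        show (b.1, δ b.1 b.2 + w b.1 (δ b.1 b.2)) = b
        rw [hδ]
      have h2 := hHinj _ _ (h1.trans hb.symm)
      rw [← h2]
    rw [← hHa]
    exact (contDiffAt_snd.comp (H a) hloc).congr_of_eventuallyEq heq
  refine ⟨{ γ := fun t y => y + w t y
            δ := δ
            hγ := contDiff_snd.add hw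
            hδ := hδs
            left := fun t y => hinj t _ _ (hδ t _)
            right := fun t y => hδ t y
            R := R
            hR := fun t y hy => by rw [hR t y hy, add_zero] }, rfl, fun t y => rfl⟩

end Pool.Agent.L0h85.DS
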