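import Pool.Agent.L0h85.DS.M3

/-! # M5: fragmentation -/

set_option autoImplicit false

open scoped Manifold ContDiff ENNReal Topology
open MeasureTheory Metric Set

namespace Pool.Agent.L0h85.DS

variable {n : ℕ}

theorem Iso.fix {x : Sph n} {F : Dif n} (h : Iso x F) : F x = x := by
  obtain ⟨Φ, _, _, h3, U, hU, hfix⟩ := h
  rw [← h3 1 le_rfl, hfix 1 x (mem_of_mem_nhds hU)]

theorem Iso.refl (x : Sph n) : Iso x (Diffeomorph.refl (𝓡 n) (Sph n) ∞) :=
  ⟨fun _ => Diffeomorph.refl _ _ _, SmoothPath.const _, fun _ _ _ => rfl, fun _ _ _ => rfl, univ, Filter.univ_mem,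
    fun _ _ _ => rfl⟩

theorem symm_fix {F : Dif n} {y : Sph n} (h : F y = y) : F.symm y = y := by
  conv_lhs => rw [← h]
  exact F.symm_apply_apply y

theorem Iso.symm {x : Sph n} {F : Dif n} (h : Iso x F) : Iso x F.symm := by
  obtain ⟨Φ, h1, h2, h3, U, hU, hfix⟩ := h
  refine ⟨fun t => (Φ t).symm, h1.symm, fun t ht y => symm_fix (h2 t ht y), fun t ht y => ?_, U, hU,
    fun t y hy => symm_fix (hfix t y hy)⟩
  apply (Φ t).injective
  show Φ t ((Φ t).symm y) = Φ t (F.symm y)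
  rw [(Φ t).apply_symm_apply, h3 t ht, F.apply_symm_apply]

theorem Iso.trans {x : Sph n} {F G : Dif n} (h : Iso x F) (h' : Iso x G) : Iso x (F.trans G) := by
  obtain ⟨Φ, h1, h2, h3, U, hU, hfix⟩ := h
  obtain ⟨Ψ, g1, g2, g3, W, hW, gfix⟩ := h'
  refine ⟨fun t => (Φ t).trans (Ψ t), h1.trans g1, fun t ht y => ?_, fun t ht y => ?_, U ∩ W, Filter.inter_mem hU hW,
    fun t y hy => ?_⟩
  · show Ψ t (Φ t y) = y
    rw [h2 t ht, g2 t ht]
  · show Ψ t (Φ t y) = G (F y)
    rw [h3 t ht, g3 t ht]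
  · show Ψ t (Φ t y) = y
    rw [hfix t y hy.1, gfix t y hy.2]

theorem Iso.conj {x : Sph n} {F : Dif n} (h : Iso x F) (H : Dif n) : Iso (H x) ((H.symm.trans F).trans H) := by
  obtain ⟨Φ, h1, h2, h3, U, hU, hfix⟩ := h
  refine ⟨fun t => (H.symm.trans (Φ t)).trans H, ((SmoothPath.const H.symm).trans h1).trans (SmoothPath.const H),
    fun t ht y => ?_, fun t ht y => ?_, H.symm ⁻¹' U, ?_, fun t y hy => ?_⟩
  · show H (Φ t (H.symm y)) = y
    rw [h2 t ht, H.apply_symm_apply]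
  · show H (Φ t (H.symm y)) = H (F (H.symm y))
    rw [h3 t ht]
  · refine H.symm.continuous.continuousAt.preimage_mem_nhds ?_
    rwa [H.symm_apply_apply]
  · show H (Φ t (H.symm y)) = y
    rw [hfix t _ hy, H.apply_symm_apply]

theorem Iso.of_eq {x y : Sph n} {F : Dif n} (h : Iso x F) (hxy : x = y) : Iso y F := hxy ▸ h

theorem Iso.congr {x : Sph n} {F G : Dif n} (h : Iso x F) (hc : ∀ y, F y = G y) : Iso x G := by
  obtain ⟨Φ, h1, h2, h3, h4⟩ := h
  exact ⟨Φ, h1, h2, fun t ht y => (h3 t ht y).trans (hc y), h4⟩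

theorem near_pole (v : Sph n) (R : ℝ) : ∀ᶠ x in 𝓝 v, x = v ∨ R < ‖st v x‖ := by
  set K : Set (Sph n) := (st v).symm '' closedBall (0 : V n) R with hK
  have hKc : IsCompact K := (isCompact_closedBall _ _).image (contMDiff_st_symm v).continuous
  have hvK : v ∉ K := by
    rintro ⟨y, _, h⟩
    exact st_symm_ne v y h
  have h1 : ∀ᶠ z in 𝓝 v, z ∉ K := hKc.isClosed.isOpen_compl.mem_nhds hvK
  filter_upwards [h1] with z hz
  by_cases hzv : z = v
  · exact Or.inl hzv
  · right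
    by_contra h
    push Not at h
    exact hz ⟨st v z, by simpa [mem_closedBall, dist_zero_right] using h, st_left v hzv⟩

/-- the local step of the fragmentation -/
theorem frag_local (hM3 : M3) (hM4 : M4) (hn : 1 ≤ n) (Φ : ℝ → Dif n) (hΦ : SmoothPath Φ) (t0 : ℝ) (x v : Sph n)
    (hne : Φ t0 x ≠ v) : ∃ η > 0, ∀ t, |t - t0| < η → ∃ G F : Dif n, Iso v G ∧ Iso (Φ t0 x) F ∧
      ∀ y, Φ t y = G (F (Φ t0 y)) := by
  classical
  set x0 := Φ t0 x with hx0
  set y0 : V n := st v x0 with hy0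
  let χ : ContDiffBump y0 := ⟨1, 2, by norm_num, by norm_num⟩
  have hχ0 : ∀ y : V n, 2 ≤ ‖y - y0‖ → χ y = 0 := fun y hy => χ.zero_of_le_dist (by rw [dist_eq_norm]; exact hy)
  have hχ1 : ∀ y : V n, ‖y - y0‖ ≤ 1 → χ y = 1 := fun y hy =>
    χ.one_of_mem_closedBall (by rw [mem_closedBall, dist_eq_norm]; exact hy)
  set K : Set (V n) := closedBall y0 2 with hK
  have hKc : IsCompact K := isCompact_closedBall _ _
  set P : ℝ × V n → Sph n := fun q => Φ q.1 ((Φ t0).symm ((st v).symm q.2)) with hP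
  have hPs : ContMDiff (𝓘(ℝ, ℝ).prod (𝓡 n)) (𝓡 n) ∞ P := by
    have h1 : ContMDiff (𝓘(ℝ, ℝ).prod (𝓡 n)) (𝓘(ℝ, ℝ).prod (𝓡 n)) ∞
        (fun q : ℝ × V n => (q.1, (Φ t0).symm ((st v).symm q.2))) :=
      contMDiff_fst.prodMk (((Φ t0).symm.contMDiff.comp (contMDiff_st_symm v)).comp contMDiff_snd)
    exact hΦ.1.comp h1
  have hPt0 : ∀ y, P (t0, y) = (st v).symm y := fun y => (Φ t0).apply_symm_apply _
  set w0 : ℝ × V n → V n := fun q => χ q.2 • (st v (P q) - q.2) with hw0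
  set O : Set (ℝ × V n) := {q | P q ≠ v} ∪ {q | q.2 ∉ K} with hO
  have hOpen : IsOpen O := by
    refine IsOpen.union ?_ ?_
    · exact isOpen_ne.preimage hPs.continuous
    · exact hKc.isClosed.isOpen_compl.preimage continuous_snd
  have hsm : ∀ q ∈ O, ContDiffAt ℝ ∞ w0 q := by
    intro q hq
    rcases hq with hq | hq
    · have h1 : ContMDiffAt (𝓘(ℝ, ℝ).prod (𝓡 n)) (𝓡 n) ∞ (fun q => st v (P q)) q := by
        have h2 : ContMDiffAt (𝓡 n) (𝓡 n) ∞ (st v : Sph n → V n) (P q) :=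
          (contMDiffOn_st v).contMDiffAt (isOpen_compl_singleton.mem_nhds hq)
        exact ContMDiffAt.comp q h2 (hPs q)
      rw [← modelWithCornersSelf_prod, chartedSpaceSelf_prod] at h1
      have h3 : ContDiffAt ℝ ∞ (fun q => st v (P q)) q := h1.contDiffAt
      exact (χ.contDiff.comp contDiff_snd).contDiffAt.smul (h3.sub contDiffAt_snd)
    · have h1 : w0 =ᶠ[𝓝 q] fun _ => 0 := by
        have : {q : ℝ × V n | q.2 ∉ K} ∈ 𝓝 q :=
          (hKc.isClosed.isOpen_compl.preimage continuous_snd).mem_nhds hq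
        filter_upwards [this] with z hz
        have hz' : 2 ≤ ‖z.2 - y0‖ := by
          have hz2 : z.2 ∉ K := hz
          rw [hK, mem_closedBall, dist_eq_norm, not_le] at hz2
          exact hz2.le
        simp [hw0, hχ0 _ hz']
      exact contDiffAt_const.congr_of_eventuallyEq h1
  -- the partial derivative
  have hpart : ∀ q ∈ O, HasFDerivAt (fun y => w0 (q.1, y)) ((fderiv ℝ w0 q).comp (ContinuousLinearMap.inr ℝ ℝ (V n))) q.2 := by
    intro q hq
    have h1 : HasFDerivAt w0 (fderiv ℝ w0 q) (q.1, q.2) := ((hsm q hq).differentiableAt (by simp)).hasFDerivAt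
    exact h1.comp q.2 (hasFDerivAt_prodMk_right q.1 q.2)
  have hcont : ContinuousOn (fun q => (fderiv ℝ w0 q).comp (ContinuousLinearMap.inr ℝ ℝ (V n))) O := by
    intro q hq
    have h1 : ContinuousAt (fderiv ℝ w0) q := by
      have := (hsm q hq).fderiv_right (m := ∞) (by simp)
      exact this.continuousAt
    exact (h1.clm_comp continuousAt_const).continuousWithinAt
  have htube : ∀ᶠ t in 𝓝 t0, ∀ y ∈ K, P (t, y) ≠ v ∧
      ‖(fderiv ℝ w0 (t, y)).comp (ContinuousLinearMap.inr ℝ ℝ (V n))‖ < 1 / 2 := by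
    refine hKc.eventually_forall_of_forall_eventually
      (P := fun t y => P (t, y) ≠ v ∧ ‖(fderiv ℝ w0 (t, y)).comp (ContinuousLinearMap.inr ℝ ℝ (V n))‖ < 1 / 2) ?_
    intro y hy
    have hq : P (t0, y) ≠ v := by rw [hPt0]; exact st_symm_ne v y
    have hqO : (t0, y) ∈ O := Or.inl hq
    have e1 : ∀ᶠ z : ℝ × V n in 𝓝 (t0, y), P z ≠ v :=
      (isOpen_ne.preimage hPs.continuous).mem_nhds hq
    have e2 : (fderiv ℝ w0 (t0, y)).comp (ContinuousLinearMap.inr ℝ ℝ (V n)) = 0 := by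
      have h1 := hpart (t0, y) hqO
      have h2 : (fun y => w0 (t0, y)) = fun _ => 0 := by
        funext z
        show χ z • (st v (P (t0, z)) - z) = 0
        rw [hPt0, st_right, sub_self, smul_zero]
      simp only at h1
      rw [h2] at h1
      exact h1.unique (hasFDerivAt_const _ _)
    have e3 : ∀ᶠ z : ℝ × V n in 𝓝 (t0, y), ‖(fderiv ℝ w0 z).comp (ContinuousLinearMap.inr ℝ ℝ (V n))‖ < 1 / 2 := by
      have h1 : ContinuousAt (fun z => ‖(fderiv ℝ w0 z).comp (ContinuousLinearMap.inr ℝ ℝ (V n))‖) (t0, y) :=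
        (hcont.continuousAt (hOpen.mem_nhds hqO)).norm
      have h2 : ‖(fderiv ℝ w0 (t0, y)).comp (ContinuousLinearMap.inr ℝ ℝ (V n))‖ < 1 / 2 := by
        rw [e2, norm_zero]; norm_num
      exact h1.eventually_lt_const h2
    filter_upwards [e1, e3] with z hz1 hz2
    exact ⟨hz1, hz2⟩
  obtain ⟨η, hη, htube⟩ := Metric.eventually_nhds_iff.mp htube
  refine ⟨η, hη, ?_⟩
  intro t ht
  -- the reparametrisation
  set a : ℝ → ℝ := fun s => t0 + Real.smoothTransition s * (t - t0) with ha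
  have ha_s : ContDiff ℝ ∞ a := contDiff_const.add (Real.smoothTransition.contDiff.mul contDiff_const)
  have ha0 : ∀ s ≤ 0, a s = t0 := by
    intro s hs
    simp [ha, Real.smoothTransition.zero_of_nonpos hs]
  have ha1 : ∀ s, 1 ≤ s → a s = t := by
    intro s hs
    simp [ha, Real.smoothTransition.one_of_one_le hs]
  have haη : ∀ s, ∀ y ∈ K, P (a s, y) ≠ v ∧
      ‖(fderiv ℝ w0 (a s, y)).comp (ContinuousLinearMap.inr ℝ ℝ (V n))‖ < 1 / 2 := by
    intro s
    apply htube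
    rw [Real.dist_eq]
    have : a s - t0 = Real.smoothTransition s * (t - t0) := by simp [ha]
    rw [this, abs_mul, abs_of_nonneg (Real.smoothTransition.nonneg s)]
    calc Real.smoothTransition s * |t - t0| ≤ 1 * |t - t0| := by
          gcongr
          exact Real.smoothTransition.le_one s
      _ < η := by rwa [one_mul]
  have hO_s : ∀ s y, (a s, y) ∈ O := by
    intro s y
    by_cases hy : y ∈ K
    · exact Or.inl (haη s y hy).1
    · exact Or.inr hy
  obtain ⟨g, hgR, hg⟩ := hM4 n (fun s y => w0 (a s, y)) (‖y0‖ + 2)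
    (by
      rw [contDiff_iff_contDiffAt]
      rintro ⟨s, y⟩
      have h1 : ContDiffAt ℝ ∞ (fun q : ℝ × V n => (a q.1, q.2)) (s, y) :=
        ((ha_s.comp contDiff_fst).prodMk contDiff_snd).contDiffAt
      have h2 : ContDiffAt ℝ ∞ (w0 ∘ fun q : ℝ × V n => (a q.1, q.2)) (s, y) :=
        ContDiffAt.comp (s, y) (g := w0) (f := fun q : ℝ × V n => (a q.1, q.2)) (hsm (a s, y) (hO_s s y)) h1
      exact h2)
    (by
      intro s y hy
      have : 2 ≤ ‖y - y0‖ := by
        have := norm_sub_norm_le y y0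
        linarith
      simp [hw0, hχ0 y this])
    (by
      intro s y
      have h1 := hpart (a s, y) (hO_s s y)
      simp only at h1
      rw [h1.fderiv]
      by_cases hy : y ∈ K
      · exact (haη s y hy).2.le
      · have h2 : (fun z => w0 (a s, z)) =ᶠ[𝓝 y] fun _ => 0 := by
          filter_upwards [hKc.isClosed.isOpen_compl.mem_nhds hy] with z hz
          have hz' : 2 ≤ ‖z - y0‖ := by
            rw [mem_compl_iff, hK, mem_closedBall, dist_eq_norm, not_le] at hz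
            exact hz.le
          simp [hw0, hχ0 _ hz']
        have h3 : HasFDerivAt (fun z => w0 (a s, z)) (0 : V n →L[ℝ] V n) y :=
          (hasFDerivAt_const _ _).congr_of_eventuallyEq h2
        rw [h1.unique h3, norm_zero]
        norm_num)
  obtain ⟨Γ, hΓ, hv, hy, _, _⟩ := hM3 n v g hn
  have hγ0 : ∀ s ≤ 0, ∀ y, g.γ s y = y := by
    intro s hs y
    rw [hg, ha0 s hs]
    show y + χ y • (st v (P (t0, y)) - y) = y
    rw [hPt0, st_right, sub_self, smul_zero, add_zero]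
  have hγ1 : ∀ s, 1 ≤ s → ∀ y, g.γ s y = g.γ 1 y := by
    intro s hs y
    rw [hg, hg, ha1 s hs, ha1 1 le_rfl]
  have hid : ∀ s ≤ 0, ∀ z, Γ s z = z := by
    intro s hs z
    by_cases hz : z = v
    · rw [hz, hv]
    · rw [← st_left v hz, hy, hγ0 s hs]
  have hone : ∀ s, 1 ≤ s → ∀ z, Γ s z = Γ 1 z := by
    intro s hs z
    by_cases hz : z = v
    · rw [hz, hv, hv]
    · rw [← st_left v hz, hy, hy, hγ1 s hs]
  -- on the ball of radius one `Γ s` is `Φ (a s) (Φ t0)⁻¹`
  have hin : ∀ s y, ‖y - y0‖ ≤ 1 → Γ s ((st v).symm y) = P (a s, y) := by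
    intro s y hy'
    have hyK : y ∈ K := by
      rw [hK, mem_closedBall, dist_eq_norm]
      linarith
    rw [hy, hg]
    show (st v).symm (y + χ y • (st v (P (a s, y)) - y)) = P (a s, y)
    rw [hχ1 y hy', one_smul, add_sub_cancel, st_left v (haη s y hyK).1]
  have hΨ : SmoothPath (fun s => (Φ t0).symm.trans (Φ (a s))) :=
    (SmoothPath.const (Φ t0).symm).trans (hΦ.reparam ha_s)
  refine ⟨Γ 1, ((Φ t0).symm.trans (Φ t)).trans (Γ 1).symm, ?_, ?_, ?_⟩
  · refine ⟨Γ, hΓ, hid, hone, {z | z = v ∨ ‖y0‖ + 2 < ‖st v z‖}, near_pole v _, ?_⟩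
    intro s z hz
    rcases hz with hz | hz
    · rw [hz, hv]
    · by_cases hzv : z = v
      · rw [hzv, hv]
      · rw [← st_left v hzv, hy, g.hR s _ (by rw [hgR]; exact hz.le)]
  · refine ⟨fun s => ((Φ t0).symm.trans (Φ (a s))).trans (Γ s).symm, hΨ.trans hΓ.symm, ?_, ?_, 
      {z | z ≠ v ∧ ‖st v z - y0‖ < 1}, ?_, ?_⟩
    · intro s hs y
      show (Γ s).symm (Φ (a s) ((Φ t0).symm y)) = y
      rw [ha0 s hs, (Φ t0).apply_symm_apply]
      exact symm_fix (hid s hs y)
    · intro s hs y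
      show (Γ s).symm (Φ (a s) ((Φ t0).symm y)) = (Γ 1).symm (Φ t ((Φ t0).symm y))
      rw [ha1 s hs]
      apply (Γ s).injective
      show Γ s ((Γ s).symm _) = Γ s ((Γ 1).symm _)
      rw [(Γ s).apply_symm_apply, hone s hs, (Γ 1).apply_symm_apply]
    · have h1 : ContinuousAt (fun z => ‖st v z - y0‖) x0 := by
        have h2 : ContinuousAt (st v : Sph n → V n) x0 :=
          ((contMDiffOn_st v).contMDiffAt (isOpen_compl_singleton.mem_nhds hne)).continuousAt
        exact (h2.sub continuousAt_const).norm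
      have h3 : ∀ᶠ z in 𝓝 x0, ‖st v z - y0‖ < 1 := by
        apply h1.eventually_lt_const
        show ‖st v x0 - y0‖ < 1
        rw [← hy0, sub_self, norm_zero]
        norm_num
      have h4 : ∀ᶠ z in 𝓝 x0, z ≠ v := isOpen_ne.mem_nhds hne
      filter_upwards [h3, h4] with z hz1 hz2
      exact ⟨hz2, hz1⟩
    · rintro s z ⟨hz1, hz2⟩
      show (Γ s).symm (Φ (a s) ((Φ t0).symm z)) = z
      have h1 := hin s (st v z) hz2.le
      rw [st_left v hz1] at h1
      have h2 : P (a s, st v z) = Φ (a s) ((Φ t0).symm z) := by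
        show Φ (a s) ((Φ t0).symm ((st v).symm (st v z))) = _
        rw [st_left v hz1]
      rw [← h2, ← h1, (Γ s).symm_apply_apply]
  · intro y
    show Φ t y = Γ 1 ((Γ 1).symm (Φ t ((Φ t0).symm (Φ t0 y))))
    rw [(Γ 1).apply_symm_apply, (Φ t0).symm_apply_apply]

theorem m5 (hM3 : M3) (hM4 : M4) : M5 := by
  intro n Φ x v hn hΦ h0 htrack
  set T : Set ℝ := {t | ∃ G F : Dif n, Iso v G ∧ Iso x F ∧ ∀ y, Φ t y = G (F y)} with hT
  have h0T : (0 : ℝ) ∈ T := ⟨_, _, Iso.refl v, Iso.refl x, fun y => h0 y⟩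
  have hloc : ∀ t0 ∈ Icc (0 : ℝ) 1, ∀ᶠ t in 𝓝[Icc (0 : ℝ) 1] t0, (t0 ∈ T ↔ t ∈ T) := by
    intro t0 ht0
    obtain ⟨η, hη, hfrag⟩ := frag_local hM3 hM4 hn Φ hΦ t0 x v (htrack t0 ht0)
    have hev : ∀ᶠ t in 𝓝 t0, |t - t0| < η := by
      have := Metric.ball_mem_nhds t0 hη
      filter_upwards [this] with t ht
      rwa [mem_ball, Real.dist_eq] at ht
    refine (hev.filter_mono nhdsWithin_le_nhds).mono fun t ht => ?_
    obtain ⟨G, F, hG, hF, hGF⟩ := hfrag t ht
    constructor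
    · rintro ⟨G0, F0, hG0, hF0, hh⟩
      have hx : G0.symm (Φ t0 x) = x := by
        rw [hh x, hF0.fix, G0.symm_apply_apply]
      refine ⟨G0.trans G, F0.trans ((G0.symm.symm.trans F).trans G0.symm), hG0.trans hG,
        hF0.trans ((hF.conj G0.symm).of_eq hx), fun y => ?_⟩
      show Φ t y = G (G0 (G0.symm (F (G0.symm.symm (F0 y)))))
      rw [G0.apply_symm_apply, hGF, hh]
      rfl
    · rintro ⟨G1, F1, hG1, hF1, hh⟩
      have hx : (G.trans G1.symm) (Φ t0 x) = x := by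
        show G1.symm (G (Φ t0 x)) = x
        have h1 : G (Φ t0 x) = G1 x := by
          have h2 := hGF x
          rw [hF.fix, hh, hF1.fix] at h2
          exact h2.symm
        rw [h1, G1.symm_apply_apply]
      refine ⟨G1.trans G.symm, F1.trans (((G.trans G1.symm).symm.trans F.symm).trans (G.trans G1.symm)),
        hG1.trans hG.symm, hF1.trans ((hF.symm.conj (G.trans G1.symm)).of_eq hx), fun y => ?_⟩
      show Φ t0 y = G.symm (G1 (G1.symm (G (F.symm (G.symm (G1.symm.symm (F1 y)))))))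
      have h1 : G1.symm.symm (F1 y) = Φ t y := (hh y).symm
      rw [h1, G1.apply_symm_apply, G.symm_apply_apply, hGF, G.symm_apply_apply, F.symm_apply_apply]
  have hall : (0 : ℝ) ∈ T ↔ (1 : ℝ) ∈ T :=
    isPreconnected_Icc.induction₂ (fun a b => (a ∈ T ↔ b ∈ T)) hloc
      (fun _ _ _ _ _ _ h1 h2 => h1.trans h2) (fun _ _ _ _ h => h.symm)
      (left_mem_Icc.mpr zero_le_one) (right_mem_Icc.mpr zero_le_one)
  exact hall.mp h0T

end Pool.Agent.L0h85.DS
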