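import Pool.Agent.L0h85.DS.Path

/-! # M6: a point off the track -/

set_option autoImplicit false

open scoped Manifold ContDiff ENNReal Topology
open MeasureTheory Metric Set

namespace Pool.Agent.L0h85.DS

theorem m6 : M6 := by
  intro n Φ x hn hΦ
  have hc : ContDiff ℝ ∞ (fun s : ℝ => ((Φ s x : Sph n) : V (n + 1))) := hΦ.curve x
  have hf : ContDiff ℝ 1 (fun q : ℝ × ℝ => q.1 • ((Φ q.2 x : Sph n) : V (n + 1))) :=
    (contDiff_fst.smul (hc.comp contDiff_snd)).of_le (by exact_mod_cast le_top)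
  have hrank : Module.finrank ℝ (ℝ × ℝ) < Module.finrank ℝ (V (n + 1)) := by
    rw [Module.finrank_prod, Module.finrank_self, finrank_euclideanSpace_fin]
    omega
  have hd := hf.dense_compl_range_of_finrank_lt_finrank hrank
  obtain ⟨z, hz, hz0⟩ : ∃ z : V (n + 1), z ∈ (range fun q : ℝ × ℝ => q.1 • ((Φ q.2 x : Sph n) : V (n + 1)))ᶜ ∧ z ≠ 0 := by
    have hopen : IsOpen ({0}ᶜ : Set (V (n + 1))) := isOpen_compl_singleton
    have hne : ({0}ᶜ : Set (V (n + 1))).Nonempty := by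
      refine ⟨EuclideanSpace.single 0 1, ?_⟩
      simp
    obtain ⟨z, hz1, hz2⟩ := hd.inter_open_nonempty _ hopen hne
    exact ⟨z, hz2, hz1⟩
  have hzn : 0 < ‖z‖ := norm_pos_iff.mpr hz0
  refine ⟨⟨‖z‖⁻¹ • z, by simp [norm_smul, hzn.ne']⟩, ?_⟩
  intro t h
  apply hz
  refine ⟨(‖z‖, t), ?_⟩
  show ‖z‖ • ((Φ t x : Sph n) : V (n + 1)) = z
  rw [h]
  show ‖z‖ • (‖z‖⁻¹ • z) = z
  rw [smul_smul, mul_inv_cancel₀ hzn.ne', one_smul]

end Pool.Agent.L0h85.DS
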