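import Pool.Agent.L0h85.DS.Squeeze

/-! # M7: uniform cost of the groups `Iso x` -/

set_option autoImplicit false

open scoped Manifold ContDiff ENNReal Topology
open MeasureTheory Metric Set

namespace Pool.Agent.L0h85.DS

variable {n : ℕ}

theorem contMDiff_st_symm (v : Sph n) : ContMDiff (𝓡 n) (𝓡 n) ∞ ((st v).symm : V n → Sph n) := by
  have h : (st v) ∈ IsManifold.maximalAtlas (𝓡 n) ∞ (Sph n) :=
    IsManifold.subset_maximalAtlas ⟨v, rfl⟩
  have := contMDiffOn_symm_of_mem_maximalAtlas h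
  rw [show (st v).target = univ by simp] at this
  exact contMDiffOn_univ.mp this

theorem contMDiffOn_st (v : Sph n) : ContMDiffOn (𝓡 n) (𝓡 n) ∞ (st v : Sph n → V n) {v}ᶜ := by
  have h : (st v) ∈ IsManifold.maximalAtlas (𝓡 n) ∞ (Sph n) :=
    IsManifold.subset_maximalAtlas ⟨v, rfl⟩
  have := contMDiffOn_of_mem_maximalAtlas h
  rwa [show (st v).source = {v}ᶜ by simp] at this

theorem contDiff_chart {Φ : ℝ → Sph n → Sph n} (v : Sph n)
    (h : ContMDiff (𝓘(ℝ, ℝ).prod (𝓡 n)) (𝓡 n) ∞ (fun q : ℝ × Sph n => Φ q.1 q.2))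
    (hne : ∀ t y, Φ t ((st v).symm y) ≠ v) :
    ContDiff ℝ ∞ (fun q : ℝ × V n => st v (Φ q.1 ((st v).symm q.2))) := by
  have h1 : ContMDiff (𝓘(ℝ, ℝ).prod (𝓡 n)) (𝓘(ℝ, ℝ).prod (𝓡 n)) ∞ (fun q : ℝ × V n => (q.1, (st v).symm q.2)) :=
    contMDiff_fst.prodMk ((contMDiff_st_symm v).comp contMDiff_snd)
  have h2 : ContMDiff (𝓘(ℝ, ℝ).prod (𝓡 n)) (𝓡 n) ∞ (fun q : ℝ × V n => Φ q.1 ((st v).symm q.2)) := h.comp h1
  have h3 : ContMDiff (𝓘(ℝ, ℝ).prod (𝓡 n)) (𝓡 n) ∞ (fun q : ℝ × V n => st v (Φ q.1 ((st v).symm q.2))) :=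
    (contMDiffOn_st v).comp_contMDiff h2 (fun q => hne q.1 q.2)
  rw [← modelWithCornersSelf_prod, chartedSpaceSelf_prod] at h3
  exact h3.contDiff

/-- a path of diffeomorphisms supported in a cap gives a flat family -/
theorem exists_flat (v : Sph n) (Φ : ℝ → Dif n) (hΦ : SmoothPath Φ) (hv : ∀ t, Φ t v = v)
    (hR : ∀ t y, 2 ≤ ‖y‖ → Φ t ((st v).symm y) = (st v).symm y) :
    ∃ g : Flat n, g.R = 2 ∧ ∀ t y, (st v).symm (g.γ t y) = Φ t ((st v).symm y) := by
  have ne1 : ∀ t y, Φ t ((st v).symm y) ≠ v := by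
    intro t y h
    exact st_symm_ne v y ((Φ t).injective (h.trans (hv t).symm))
  have hv' : ∀ t, (Φ t).symm v = v := by
    intro t
    conv_lhs => rw [← hv t]
    exact (Φ t).symm_apply_apply v
  have ne2 : ∀ t y, (Φ t).symm ((st v).symm y) ≠ v := by
    intro t y h
    exact st_symm_ne v y ((Φ t).symm.injective (h.trans (hv' t).symm))
  refine ⟨{ γ := fun t y => st v (Φ t ((st v).symm y))
            δ := fun t y => st v ((Φ t).symm ((st v).symm y))
            hγ := contDiff_chart (Φ := fun t x => Φ t x) v hΦ.1 ne1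
            hδ := contDiff_chart (Φ := fun t x => (Φ t).symm x) v hΦ.2 ne2
            left := ?_
            right := ?_
            R := 2
            hR := ?_ }, rfl, ?_⟩
  · intro t y
    show st v ((Φ t).symm ((st v).symm (st v (Φ t ((st v).symm y))))) = y
    rw [st_left v (ne1 t y), (Φ t).symm_apply_apply, st_right]
  · intro t y
    show st v (Φ t ((st v).symm (st v ((Φ t).symm ((st v).symm y))))) = y
    rw [st_left v (ne2 t y), (Φ t).apply_symm_apply, st_right]
  · intro t y hy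
    show st v (Φ t ((st v).symm y)) = y
    rw [hR t y hy, st_right]
  · intro t y
    show (st v).symm (st v (Φ t ((st v).symm y))) = _
    rw [st_left v (ne1 t y)]

/-- isotopies supported in a cap have bounded cost -/
theorem cap_cost (hM2 : M2) (hM3 : M3) (hM4 : M4) {ι : Type} [Fintype ι] (A : ι → Chart n) (k : ℕ) (σ p : ℝ) (hn : 1 ≤ n)
    (h0 : 0 ≤ σ) (h1 : σ < 1) (hp : 1 ≤ p) (hs : (k : ℝ) + σ < 1 + n / p) (v : Sph n) :
    ∃ C : ℝ≥0∞, C ≠ ⊤ ∧ ∀ (Φ : ℝ → Dif n) (F : Dif n), SmoothPath Φ → (∀ t ≤ 0, ∀ y, Φ t y = y) →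
      (∀ t, 1 ≤ t → ∀ y, Φ t y = F y) → (∀ t, Φ t v = v) → (∀ t y, 2 ≤ ‖y‖ → Φ t ((st v).symm y) = (st v).symm y) →
      Cost (sobS A k σ p) F C := by
  obtain ⟨C0, θ, hC0, hθ0, hθ1, hsq⟩ := squeezes hM2 hM3 hM4 A k σ p hn h0 h1 hp hs v 0 le_rfl
  refine ⟨C0 + 1 + C0, by simp [hC0], ?_⟩
  intro Φ F hΦ hid hone hv hR
  obtain ⟨g, hgR, hg⟩ := exists_flat v Φ hΦ hv hR
  have hg0 : ∀ t ≤ 0, ∀ y, g.γ t y = y := by
    intro t ht y
    apply st_symm_inj v
    rw [hg, hid t ht]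
  have hg1 : ∀ t, 1 ≤ t → ∀ y, g.γ t y = g.γ 1 y := by
    intro t ht y
    apply st_symm_inj v
    rw [hg, hg, hone t ht, hone 1 le_rfl]
  have hgF : ∀ y, (st v).symm (g.γ 1 y) = F ((st v).symm y) := by
    intro y
    rw [hg, hone 1 le_rfl]
  have hFv : F v = v := by rw [← hone 1 le_rfl, hv]
  obtain ⟨C, hC, hcost⟩ := transplant_cost hM2 hM3 A k σ p hn h0 h1 hp v g hg0 hg1 0 le_rfl
  set β : ℝ := 1 + n / p - k - σ with hβ
  have hβ0 : 0 < β := by rw [hβ]; linarith
  have hr1 : θ ^ β < 1 := Real.rpow_lt_one hθ0.le hθ1 hβ0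
  obtain ⟨m, hm⟩ : ∃ m : ℕ, C * (θ ^ m) ^ β ≤ 1 := by
    obtain ⟨m, hm⟩ := exists_pow_lt_of_lt_one (show (0 : ℝ) < 1 / (C + 1) by positivity) hr1
    refine ⟨m, ?_⟩
    have h2 : (θ ^ m) ^ β = (θ ^ β) ^ m := by
      rw [← Real.rpow_natCast (θ ^ β) m, ← Real.rpow_mul hθ0.le, mul_comm β, Real.rpow_mul hθ0.le, Real.rpow_natCast]
    rw [h2]
    calc C * (θ ^ β) ^ m ≤ C * (1 / (C + 1)) := by gcongr
      _ ≤ 1 := by
        rw [mul_one_div, div_le_one (by positivity)]
        linarith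
  obtain ⟨H, hH1, hHv, hH⟩ := hsq 0 (by simp) m
  obtain ⟨G, hG1, hGv, hG⟩ := hcost 0 (by simp) (θ ^ m) (pow_pos hθ0 m) (pow_le_one₀ hθ0.le hθ1.le)
  have hθm : 0 < θ ^ m := pow_pos hθ0 m
  have hH' : ∀ y, ‖y‖ ≤ 5 → H ((st v).symm y) = (st v).symm (θ ^ m • y) := by
    intro y hy
    rw [hH y (by simpa using hy)]
    simp
  have hG' : ∀ y, G ((st v).symm y) = (st v).symm (θ ^ m • g.γ 1 ((θ ^ m)⁻¹ • y)) := by
    intro y
    rw [hG y]
    simp
  have hin : ∀ y : V n, ‖y‖ < 2 → ‖g.γ 1 y‖ < 2 := by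
    intro y hy
    by_contra h
    push Not at h
    have e1 : g.γ 1 (g.γ 1 y) = g.γ 1 y := g.hR 1 _ (by rw [hgR]; exact h)
    have e2 : g.γ 1 y = y := by
      have := congrArg (g.δ 1) e1
      rwa [g.left, g.left] at this
    rw [e2] at h
    linarith
  have hGH : ∀ x, G (H x) = H (F x) := by
    intro x
    by_cases hx : x = v
    · rw [hx, hHv, hGv, hFv, hHv]
    · obtain ⟨y, rfl⟩ : ∃ y, x = (st v).symm y := ⟨st v x, (st_left v hx).symm⟩
      by_cases hy : ‖y‖ < 2
      · rw [hH' y (by linarith), hG', smul_smul, inv_mul_cancel₀ hθm.ne', one_smul, ← hgF, hH' _ (by linarith [hin y hy])]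
      · push Not at hy
        have hFy : F ((st v).symm y) = (st v).symm y := by rw [← hone 1 le_rfl, hR 1 y hy]
        rw [hFy]
        have hne : H ((st v).symm y) ≠ v := by
          intro h
          exact st_symm_ne v y (H.injective (h.trans hHv.symm))
        obtain ⟨z, hz⟩ : ∃ z, H ((st v).symm y) = (st v).symm z := ⟨st v _, (st_left v hne).symm⟩
        rw [hz, hG']
        congr 1
        have hz2 : 2 ≤ ‖(θ ^ m)⁻¹ • z‖ := by
          by_contra h'
          push Not at h'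
          have e1 := hH' ((θ ^ m)⁻¹ • z) (by linarith)
          rw [smul_smul, mul_inv_cancel₀ hθm.ne', one_smul, ← hz] at e1
          have e2 := st_symm_inj v (H.injective e1)
          rw [e2] at h'
          linarith
        rw [g.hR 1 _ (by rw [hgR]; exact hz2), smul_smul, mul_inv_cancel₀ hθm.ne', one_smul]
  have hN := homN A k σ p hp
  have hG2 : Cost (sobS A k σ p) G 1 := hG1.mono (by
    rw [← ENNReal.ofReal_one]
    exact ENNReal.ofReal_le_ofReal hm)
  have := ((hH1.trans hN hG2).trans hN (hH1.symm hN))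
  refine this.congr fun y => ?_
  show H.symm (G (H y)) = F y
  rw [hGH, H.symm_apply_apply]

/-- M7 -/
theorem m7 (hM2 : M2) (hM3 : M3) (hM4 : M4) : M7 := by
  intro n ι _ A k σ p hn h0 h1 hp hs
  have hN := homN (n := n) A k σ p hp
  -- a pole
  obtain ⟨v⟩ : Nonempty (Sph n) := ⟨⟨EuclideanSpace.single 0 1, by simp⟩⟩
  have main : ∀ v : Sph n, ∃ C : ℝ≥0∞, C ≠ ⊤ ∧ ∀ (x : Sph n) (F : Dif n), Iso x F → x ≠ v → ‖st v x‖ ≤ 2 →
      Cost (sobS A k σ p) F C := by
    intro v
    obtain ⟨C1, hC1, hcap⟩ := cap_cost hM2 hM3 hM4 A k σ p hn h0 h1 hp hs (-v)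
    obtain ⟨C0, θ, hC0, hθ0, hθ1, hsq⟩ := squeezes hM2 hM3 hM4 A k σ p hn h0 h1 hp hs v 2 (by norm_num)
    refine ⟨C0 + C1 + C0, by simp [hC0, hC1], ?_⟩
    intro x F ⟨Φ, hΦ, hid, hone, U, hU, hfix⟩ hxv hx2
    set q := st v x with hq
    have hxq : (st v).symm q = x := st_left v hxv
    -- a small ball around `q` inside `U`
    obtain ⟨r, hr0, hr⟩ : ∃ r > 0, ∀ y : V n, ‖y - q‖ < r → (st v).symm y ∈ U := by
      have hc : Continuous ((st v).symm : V n → Sph n) := (contMDiff_st_symm v).continuous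
      have : (st v).symm ⁻¹' U ∈ 𝓝 q := hc.continuousAt.preimage_mem_nhds (by rw [hxq]; exact hU)
      obtain ⟨r, hr0, hr⟩ := Metric.mem_nhds_iff.mp this
      exact ⟨r, hr0, fun y hy => hr (by rwa [mem_ball, dist_eq_norm])⟩
    obtain ⟨m, hm⟩ : ∃ m : ℕ, θ ^ m < r / 6 := exists_pow_lt_of_lt_one (by positivity) hθ1
    obtain ⟨H, hH1, hHv, hH⟩ := hsq q hx2 m
    -- `F' = H⁻¹ F H`
    have hfix' : ∀ t y, ‖y - q‖ ≤ 5 → Φ t (H ((st v).symm y)) = H ((st v).symm y) := by
      intro t y hy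
      apply hfix
      rw [hH y hy]
      apply hr
      rw [add_sub_cancel_left, norm_smul, Real.norm_of_nonneg (pow_pos hθ0 m).le]
      have : θ ^ m * ‖y - q‖ ≤ θ ^ m * 5 := by gcongr
      nlinarith [pow_pos hθ0 m]
    have hfix3 : ∀ t y, ‖y‖ ≤ 3 → Φ t (H ((st v).symm y)) = H ((st v).symm y) := by
      intro t y hy
      apply hfix'
      calc ‖y - q‖ ≤ ‖y‖ + ‖q‖ := norm_sub_le _ _
        _ ≤ 5 := by linarith
    have hcost := hcap (fun t => (H.trans (Φ t)).trans H.symm) ((H.trans F).trans H.symm)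
      (((SmoothPath.const H).trans hΦ).trans (SmoothPath.const H.symm))
      (by
        intro t ht y
        show H.symm (Φ t (H y)) = y
        rw [hid t ht, H.symm_apply_apply])
      (by
        intro t ht y
        show H.symm (Φ t (H y)) = H.symm (F (H y))
        rw [hone t ht])
      (by
        intro t
        show H.symm (Φ t (H (-v))) = -v
        have e1 : (st v).symm (0 : V n) = -v := by rw [← st_neg v, st_left v (neg_sph_ne v)]
        rw [← e1, hfix3 t 0 (by simp), H.symm_apply_apply])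
      (by
        intro t z hz
        show H.symm (Φ t (H ((st (-v)).symm z))) = (st (-v)).symm z
        set y := (st (-v)).symm z with hy
        have hyv' : y ≠ -v := st_symm_ne (-v) z
        have hzy : st (-v) y = z := st_right (-v) z
        by_cases hyv : y = v
        · -- then `z = 0`
          exfalso
          have h0 := st_neg (-v)
          rw [neg_neg] at h0
          rw [hyv, h0] at hzy
          rw [← hzy, norm_zero] at hz
          linarith
        · have h3 : ‖st v y‖ ≤ 3 := by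
            by_contra h'
            push Not at h'
            have e := st_norm_mul v hyv hyv'
            rw [hzy] at e
            nlinarith [mul_self_nonneg (‖st v y‖), norm_nonneg (st v y), norm_nonneg z,
              mul_le_mul hz hz (by norm_num) (norm_nonneg z), mul_lt_mul'' h' h' (by norm_num) (by norm_num)]
          have := hfix3 t (st v y) h3
          rw [st_left v hyv] at this
          rw [this, H.symm_apply_apply])
    have := (((hH1.symm hN).trans hN hcost).trans hN hH1)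
    refine this.congr fun y => ?_
    show H (H.symm (F (H (H.symm y)))) = F y
    rw [H.apply_symm_apply, H.apply_symm_apply]
  obtain ⟨C, hC, h⟩ := main v
  obtain ⟨C', hC', h'⟩ := main (-v)
  refine ⟨C + C', by simp [hC, hC'], ?_⟩
  intro x F hF
  rcases cap_cover v x with ⟨hx, hx2⟩ | ⟨hx, hx2⟩
  · exact (h x F hF hx hx2).mono le_self_add
  · exact (h' x F hF hx hx2).mono le_add_self

end Pool.Agent.L0h85.DS
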