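import Pool.Agent.L0h85.DS.Defs

/-!
# Module statements for MP_395ed7_gt: `diam Diff_0(S^n) < ∞` for `s < 1 + n/p`
-/

set_option autoImplicit false

open scoped Manifold ContDiff ENNReal Topology
open MeasureTheory Metric Set

namespace Pool.Agent.L0h85.DS

/-- stereographic projection from `v`: `S^n ∖ {v} → ℝ^n`, `-v ↦ 0` -/
noncomputable abbrev st {n : ℕ} (v : Sph n) : OpenPartialHomeomorph (Sph n) (V n) := stereographic' n v

/-- the inverse of the stereographic projection, with values in `ℝ^(n+1)` -/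
noncomputable def sg {n : ℕ} (v : Sph n) (y : V n) : V (n + 1) := (((st v).symm y : Sph n) : V (n + 1))

/-- the vector field on `S^n` given in the stereographic chart from `v` by `y ↦ ε w((y - q) / ε)` -/
noncomputable def push {n : ℕ} (v : Sph n) (q : V n) (ε : ℝ) (w : V n → V n) (x : Sph n) : V (n + 1) :=
  open Classical in
  if x = v then 0 else fderiv ℝ (sg v) (st v x) (ε • w (ε⁻¹ • (st v x - q)))

/-- smooth families of diffeomorphisms of `ℝ^n` with supports in a ball -/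
structure Flat (n : ℕ) where
  γ : ℝ → V n → V n
  δ : ℝ → V n → V n
  hγ : ContDiff ℝ ∞ (fun q : ℝ × V n => γ q.1 q.2)
  hδ : ContDiff ℝ ∞ (fun q : ℝ × V n => δ q.1 q.2)
  left : ∀ t y, δ t (γ t y) = y
  right : ∀ t y, γ t (δ t y) = y
  R : ℝ
  hR : ∀ t y, R ≤ ‖y‖ → γ t y = y

/-- the velocity `∂_t γ ∘ γ⁻¹` -/
noncomputable def Flat.w {n : ℕ} (g : Flat n) (t : ℝ) (y : V n) : V n := deriv (fun s => g.γ s (g.δ t y)) t

/-- MODULE M1 (flat Sobolev estimate): scaling bound for the `W^{k+σ,p}` norm. The constant `C` depends only on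
`n, k, σ, p, M`. -/
def M1 : Prop := ∀ (n d k : ℕ) (σ p M : ℝ), 1 ≤ n → 0 ≤ σ → σ < 1 → 1 ≤ p → 0 ≤ M →
  ∃ C : ℝ, 0 ≤ C ∧ ∀ f : V n → V d, ContDiff ℝ ∞ f → ∀ ε : ℝ, 0 < ε → ε ≤ 1 →
    volume (tsupport f) ≤ ENNReal.ofReal (M * ε ^ n) →
    (∀ j ≤ k + 1, ∀ x, ‖iteratedFDeriv ℝ j f x‖ ≤ M * ε ^ (1 - (j : ℤ))) →
    sob k σ p f ≤ ENNReal.ofReal (C * ε ^ (1 + n / p - k - σ))

/-- MODULE M2 (chart estimate), from M1: the norm of the scaled fields `push v q ε w` -/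
def M2 : Prop := ∀ (n : ℕ) (A : Chart n) (v : Sph n) (k : ℕ) (σ p M R : ℝ), 1 ≤ n → 0 ≤ σ → σ < 1 → 1 ≤ p →
  0 ≤ M → 0 ≤ R →
  ∃ C : ℝ, 0 ≤ C ∧ ∀ (q : V n) (ε : ℝ) (w : V n → V n), ‖q‖ ≤ R → 0 < ε → ε ≤ 1 → ContDiff ℝ ∞ w →
    (∀ y, R ≤ ‖y‖ → w y = 0) → (∀ j ≤ k + 1, ∀ y, ‖iteratedFDeriv ℝ j w y‖ ≤ M) →
    sob k σ p (A.rep (push v q ε w)) ≤ ENNReal.ofReal (C * ε ^ (1 + n / p - k - σ))

/-- MODULE M3 (transplantation): a compactly supported smooth family of diffeomorphisms of `ℝ^n` gives a smooth path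
of diffeomorphisms of `S^n`, through the stereographic chart from `v`, and its velocity is the transplanted field. -/
def M3 : Prop := ∀ (n : ℕ) (v : Sph n) (g : Flat n), 1 ≤ n →
  ∃ Γ : ℝ → Dif n, SmoothPath Γ ∧ (∀ t, Γ t v = v) ∧ (∀ t y, Γ t ((st v).symm y) = (st v).symm (g.γ t y)) ∧
    (∀ t y, (Γ t).symm ((st v).symm y) = (st v).symm (g.δ t y)) ∧
    ∀ t x, vel Γ t x = push v 0 1 (g.w t) x

/-- MODULE M4 (small perturbations of the identity): if `w` is smooth, supported in a ball and `‖D_y w‖ ≤ 1/2`, then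
`y ↦ y + w(t, y)` is a smooth family of diffeomorphisms. -/
def M4 : Prop := ∀ (n : ℕ) (w : ℝ → V n → V n) (R : ℝ), ContDiff ℝ ∞ (fun q : ℝ × V n => w q.1 q.2) →
  (∀ t y, R ≤ ‖y‖ → w t y = 0) → (∀ t y, ‖fderiv ℝ (w t) y‖ ≤ 1 / 2) →
  ∃ g : Flat n, g.R = R ∧ ∀ t y, g.γ t y = y + w t y

/-- `F` is isotopic to the identity through diffeomorphisms which are the identity near `x` -/
def Iso {n : ℕ} (x : Sph n) (F : Dif n) : Prop :=
  ∃ Φ : ℝ → Dif n, SmoothPath Φ ∧ (∀ t ≤ 0, ∀ y, Φ t y = y) ∧ (∀ t, 1 ≤ t → ∀ y, Φ t y = F y) ∧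
    ∃ U ∈ 𝓝 x, ∀ t, ∀ y ∈ U, Φ t y = y

/-- MODULE M5 (fragmentation), from M3 and M4: if `Φ` is a smooth path which starts at the identity and the track of `x`
does not contain `v`, then `Φ 1 = G ∘ F`, where `G` is isotopic to the identity rel. a neighbourhood of `v` and `F` rel. a
neighbourhood of `x`. -/
def M5 : Prop := ∀ (n : ℕ) (Φ : ℝ → Dif n) (x v : Sph n), 1 ≤ n → SmoothPath Φ → (∀ y, Φ 0 y = y) →
  (∀ t ∈ Icc (0 : ℝ) 1, Φ t x ≠ v) →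
  ∃ G F : Dif n, Iso v G ∧ Iso x F ∧ ∀ y, Φ 1 y = G (F y)

/-- MODULE M6 (a point off the track): for `n ≥ 2` there is a point `v` which is not on the track of `x`. -/
def M6 : Prop := ∀ (n : ℕ) (Φ : ℝ → Dif n) (x : Sph n), 2 ≤ n → SmoothPath Φ → ∃ v : Sph n, ∀ t, Φ t x ≠ v

/-- the uniform cost: `F` can be joined to the identity by a smooth path of length at most `c` for the norm `N` -/
def Cost {n : ℕ} (N : (Sph n → V (n + 1)) → ℝ≥0∞) (F : Dif n) (c : ℝ≥0∞) : Prop :=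
  ∃ Φ : ℝ → Dif n, SmoothPath Φ ∧ (∀ t ≤ 0, ∀ y, Φ t y = y) ∧ (∀ t, 1 ≤ t → ∀ y, Φ t y = F y) ∧
    ∫⁻ t in Icc (0 : ℝ) 1, N (vel Φ t) ≤ c

/-- MODULE M7 (uniform cost of the groups `Iso x`), from M2, M3, M4 -/
def M7 : Prop := ∀ (n : ℕ) (ι : Type) [Fintype ι] (A : ι → Chart n) (k : ℕ) (σ p : ℝ), 1 ≤ n → 0 ≤ σ → σ < 1 →
  1 ≤ p → (k : ℝ) + σ < 1 + n / p →
  ∃ C : ℝ≥0∞, C ≠ ⊤ ∧ ∀ (x : Sph n) (F : Dif n), Iso x F → Cost (sobS A k σ p) F C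

end Pool.Agent.L0h85.DS
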