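import Pool.Agent.L0h85.DS.Mods

/-! # Calculus of smooth paths of diffeomorphisms and of their lengths -/

set_option autoImplicit false

open scoped Manifold ContDiff ENNReal Topology
open MeasureTheory Metric Set

namespace Pool.Agent.L0h85.DS

variable {n : ℕ}

/-- the product model with corners -/
noncomputable abbrev IR (n : ℕ) := 𝓘(ℝ, ℝ).prod (𝓡 n)

theorem SmoothPath.reparam {Φ : ℝ → Dif n} (h : SmoothPath Φ) {a : ℝ → ℝ} (ha : ContDiff ℝ ∞ a) :
    SmoothPath (fun t => Φ (a t)) := by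
  have ha' : ContMDiff (IR n) 𝓘(ℝ, ℝ) ∞ (fun q : ℝ × Sph n => a q.1) :=
    ha.contMDiff.comp contMDiff_fst
  have h2 : ContMDiff (IR n) (IR n) ∞ (fun q : ℝ × Sph n => (a q.1, q.2)) := ha'.prodMk contMDiff_snd
  exact ⟨h.1.comp h2, h.2.comp h2⟩

theorem SmoothPath.trans {Φ Ψ : ℝ → Dif n} (h : SmoothPath Φ) (h' : SmoothPath Ψ) :
    SmoothPath (fun t => (Φ t).trans (Ψ t)) := by
  refine ⟨?_, ?_⟩
  · have h2 : ContMDiff (IR n) (IR n) ∞ (fun q : ℝ × Sph n => (q.1, Φ q.1 q.2)) :=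
      contMDiff_fst.prodMk h.1
    exact h'.1.comp h2
  · have h2 : ContMDiff (IR n) (IR n) ∞ (fun q : ℝ × Sph n => (q.1, (Ψ q.1).symm q.2)) :=
      contMDiff_fst.prodMk h'.2
    exact h.2.comp h2

theorem SmoothPath.const (F : Dif n) : SmoothPath (fun _ => F) :=
  ⟨F.contMDiff.comp contMDiff_snd, F.symm.contMDiff.comp contMDiff_snd⟩

theorem SmoothPath.symm {Φ : ℝ → Dif n} (h : SmoothPath Φ) : SmoothPath (fun t => (Φ t).symm) :=
  ⟨h.2, h.1⟩

/-- the curve `s ↦ Φ s y` in `ℝ^(n+1)` is smooth -/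
theorem SmoothPath.curve {Φ : ℝ → Dif n} (h : SmoothPath Φ) (y : Sph n) :
    ContDiff ℝ ∞ (fun s : ℝ => ((Φ s y : Sph n) : V (n + 1))) := by
  have h1 : ContMDiff 𝓘(ℝ, ℝ) (IR n) ∞ (fun s : ℝ => (s, y)) := contMDiff_id.prodMk contMDiff_const
  have h2 : ContMDiff 𝓘(ℝ, ℝ) 𝓘(ℝ, V (n + 1)) ∞ (fun s : ℝ => ((Φ s y : Sph n) : V (n + 1))) :=
    (contMDiff_coe_sphere.comp h.1).comp h1
  exact h2.contDiff

theorem SmoothPath.differentiableAt {Φ : ℝ → Dif n} (h : SmoothPath Φ) (y : Sph n) (t : ℝ) :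
    DifferentiableAt ℝ (fun s : ℝ => ((Φ s y : Sph n) : V (n + 1))) t :=
  ((h.curve y).differentiable (by simp)) t

theorem vel_congr {Φ Ψ : ℝ → Dif n} {t : ℝ} (h : ∀ᶠ s in 𝓝 t, ∀ y, Φ s y = Ψ s y) :
    vel Φ t = vel Ψ t := by
  funext x
  unfold vel
  have h1 : ∀ y, Φ t y = Ψ t y := h.self_of_nhds
  have h2 : (Φ t).symm x = (Ψ t).symm x := by
    have : Φ t ((Ψ t).symm x) = x := by rw [h1]; exact (Ψ t).apply_symm_apply x
    rw [← this, (Φ t).symm_apply_apply, this]
  rw [h2]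
  refine Filter.EventuallyEq.deriv_eq ?_
  filter_upwards [h] with s hs
  rw [hs]

theorem vel_comp_right (Φ : ℝ → Dif n) (F : Dif n) (t : ℝ) :
    vel (fun s => F.trans (Φ s)) t = vel Φ t := by
  funext x
  unfold vel
  congr 1
  funext s
  show ((Φ s (F (F.symm ((Φ t).symm x))) : Sph n) : V (n + 1)) = _
  rw [F.apply_symm_apply]

theorem vel_reparam {Φ : ℝ → Dif n} (h : SmoothPath Φ) {a : ℝ → ℝ} {t a' : ℝ} (ha : HasDerivAt a a' t) :
    vel (fun s => Φ (a s)) t = fun x => a' • vel Φ (a t) x := by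
  funext x
  unfold vel
  have h1 := (h.differentiableAt ((Φ (a t)).symm x) (a t)).hasDerivAt
  exact (h1.scomp t ha).deriv

/-- a norm which is homogeneous -/
def HomN (N : (Sph n → V (n + 1)) → ℝ≥0∞) : Prop :=
  ∀ (a : ℝ), a ≠ 0 → ∀ h, N (fun x => a • h x) = ‖a‖ₑ * N h

theorem lintegral_affine (f : ℝ → ℝ≥0∞) (a b : ℝ) (ha : a ≠ 0) (s : Set ℝ) (hs : MeasurableSet s) :
    ∫⁻ t in (fun t => a * t + b) ⁻¹' s, ‖a‖ₑ * f (a * t + b) = ∫⁻ u in s, f u := by
  let e : ℝ ≃ᵐ ℝ := ((Homeomorph.mulLeft₀ a ha).trans (Homeomorph.addRight b)).toMeasurableEquiv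
  have he : ∀ t, e t = a * t + b := fun t => rfl
  have hmap : Measure.map e (volume : Measure ℝ) = ENNReal.ofReal |a⁻¹| • (volume : Measure ℝ) := by
    have h1 : (e : ℝ → ℝ) = (fun x => x + b) ∘ (fun x => a * x) := by
      funext t; simp [he]
    have hm : Measurable (fun x : ℝ => x + b) := measurable_id.add_const b
    rw [h1, ← Measure.map_map hm (measurable_const_mul a),
      Real.map_volume_mul_left ha, Measure.map_smul]
    congr 1
    exact (measurePreserving_add_right volume b).map_eq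
  have h2 : ∫⁻ t in (fun t => a * t + b) ⁻¹' s, f (a * t + b) = ENNReal.ofReal |a⁻¹| * ∫⁻ u in s, f u := by
    have h3 : ∫⁻ t in (fun t => a * t + b) ⁻¹' s, f (a * t + b) = ∫⁻ t, s.indicator f (e t) := by
      rw [← lintegral_indicator ((measurable_const_mul a).add_const b hs)]
      refine lintegral_congr fun t => ?_
      rfl
    rw [h3, ← lintegral_map_equiv, hmap, lintegral_smul_measure, lintegral_indicator hs]
    rfl
  rw [lintegral_const_mul' _ _ enorm_ne_top, h2, ← mul_assoc, Real.enorm_eq_ofReal_abs, ← ENNReal.ofReal_mul (abs_nonneg _),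
    ← abs_mul, mul_inv_cancel₀ ha]
  simp

theorem Cost.symm {N : (Sph n → V (n + 1)) → ℝ≥0∞} (hN : HomN N) {F : Dif n} {c : ℝ≥0∞} (h : Cost N F c) :
    Cost N F.symm c := by
  obtain ⟨Φ, h1, h2, h3, h4⟩ := h
  have hr : SmoothPath (fun t => Φ (1 - t)) :=
    h1.reparam (a := fun t => 1 - t) (contDiff_const.sub contDiff_id)
  refine ⟨fun t => F.symm.trans (Φ (1 - t)), (SmoothPath.const F.symm).trans hr, ?_, ?_, ?_⟩
  · intro t ht y
    have : Φ (1 - t) (F.symm y) = F (F.symm y) := h3 (1 - t) (by linarith) _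
    simpa using this
  · intro t ht y
    exact h2 (1 - t) (by linarith) _
  · refine le_trans (le_of_eq ?_) h4
    have e1 : ∀ t, N (vel (fun s => F.symm.trans (Φ (1 - s))) t) = ‖(-1 : ℝ)‖ₑ * N (vel Φ ((-1) * t + 1)) := by
      intro t
      rw [vel_comp_right (fun s => Φ (1 - s)) F.symm t]
      have := vel_reparam h1 (a := fun s => 1 - s) (t := t) (a' := -1) (by simpa using (hasDerivAt_id t).const_sub 1)
      rw [this, hN (-1) (by norm_num)]
      congr 3
      ring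
    simp only [e1]
    have := lintegral_affine (fun t => N (vel Φ t)) (-1) 1 (by norm_num) (Icc 0 1) measurableSet_Icc
    rw [← this]
    congr 2
    ext t
    simp only [mem_preimage, mem_Icc]
    constructor <;> rintro ⟨h, h'⟩ <;> constructor <;> linarith

theorem Cost.trans {N : (Sph n → V (n + 1)) → ℝ≥0∞} (hN : HomN N) {F G : Dif n} {c c' : ℝ≥0∞} (h : Cost N F c)
    (h' : Cost N G c') : Cost N (F.trans G) (c + c') := by
  obtain ⟨Φ, h1, h2, h3, h4⟩ := h
  obtain ⟨Ψ, g1, g2, g3, g4⟩ := h'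
  have hr : SmoothPath (fun t => Φ (2 * t)) :=
    h1.reparam (a := fun t => 2 * t) (contDiff_const.mul contDiff_id)
  have hr' : SmoothPath (fun t => Ψ (2 * t + (-1))) :=
    g1.reparam (a := fun t => 2 * t + (-1)) ((contDiff_const.mul contDiff_id).add contDiff_const)
  refine ⟨fun t => (Φ (2 * t)).trans (Ψ (2 * t + (-1))), hr.trans hr', ?_, ?_, ?_⟩
  · intro t ht y
    show Ψ (2 * t + (-1)) (Φ (2 * t) y) = y
    rw [h2 _ (by linarith), g2 _ (by linarith)]
  · intro t ht y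
    show Ψ (2 * t + (-1)) (Φ (2 * t) y) = G (F y)
    rw [h3 _ (by linarith), g3 _ (by linarith)]
  · have e1 : ∀ t < 1 / 2, N (vel (fun t => (Φ (2 * t)).trans (Ψ (2 * t + (-1)))) t) =
        ‖(2 : ℝ)‖ₑ * N (vel Φ (2 * t + 0)) := by
      intro t ht
      have : vel (fun t => (Φ (2 * t)).trans (Ψ (2 * t + (-1)))) t = vel (fun t => Φ (2 * t)) t := by
        refine vel_congr ?_
        filter_upwards [Iio_mem_nhds ht] with s hs y
        show Ψ (2 * s + (-1)) (Φ (2 * s) y) = _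
        rw [g2 _ (by have := mem_Iio.mp hs; linarith)]
      rw [this, vel_reparam h1 (a := fun s => 2 * s) (t := t) (a' := 2)
        (by simpa using (hasDerivAt_id t).const_mul 2), hN 2 (by norm_num), add_zero]
    have e2 : ∀ t, 1 / 2 < t → N (vel (fun t => (Φ (2 * t)).trans (Ψ (2 * t + (-1)))) t) =
        ‖(2 : ℝ)‖ₑ * N (vel Ψ (2 * t + (-1))) := by
      intro t ht
      have : vel (fun t => (Φ (2 * t)).trans (Ψ (2 * t + (-1)))) t = vel (fun t => F.trans (Ψ (2 * t + (-1)))) t := by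
        refine vel_congr ?_
        filter_upwards [Ioi_mem_nhds ht] with s hs y
        show Ψ (2 * s + (-1)) (Φ (2 * s) y) = Ψ (2 * s + (-1)) (F y)
        rw [h3 _ (by have := mem_Ioi.mp hs; linarith)]
      rw [this, vel_comp_right (fun t => Ψ (2 * t + (-1))) F t, vel_reparam g1 (a := fun s => 2 * s + (-1)) (t := t) (a' := 2)
        (by simpa using ((hasDerivAt_id t).const_mul 2).add_const (-1)), hN 2 (by norm_num)]
    have hsplit : Icc (0 : ℝ) 1 ⊆ Ico 0 (1 / 2) ∪ ({1 / 2} ∪ Ioc (1 / 2) 1) := by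
      intro t ht
      rcases lt_trichotomy t (1 / 2) with h | h | h
      · exact Or.inl ⟨ht.1, h⟩
      · exact Or.inr (Or.inl h)
      · exact Or.inr (Or.inr ⟨h, ht.2⟩)
    refine (lintegral_mono_set hsplit).trans ?_
    refine (lintegral_union_le _ _ _).trans ?_
    refine add_le_add ?_ ?_
    · rw [setLIntegral_congr_fun measurableSet_Ico (fun t ht => e1 t ht.2)]
      refine le_trans ?_ h4
      rw [← lintegral_affine (fun t => N (vel Φ t)) 2 0 (by norm_num) (Icc 0 1) measurableSet_Icc]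
      refine lintegral_mono_set ?_
      intro t ht
      simp only [mem_preimage, mem_Icc]
      constructor <;> linarith [ht.1, ht.2]
    · refine (lintegral_union_le _ _ _).trans ?_
      rw [Measure.restrict_singleton]
      simp only [Real.volume_singleton, zero_smul, lintegral_zero_measure, zero_add]
      rw [setLIntegral_congr_fun measurableSet_Ioc (fun t ht => e2 t ht.1)]
      refine le_trans ?_ g4
      rw [← lintegral_affine (fun t => N (vel Ψ t)) 2 (-1) (by norm_num) (Icc 0 1) measurableSet_Icc]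
      refine lintegral_mono_set ?_
      intro t ht
      simp only [mem_preimage, mem_Icc]
      constructor <;> linarith [ht.1, ht.2]

theorem Cost.mono {N : (Sph n → V (n + 1)) → ℝ≥0∞} {F : Dif n} {c c' : ℝ≥0∞} (h : Cost N F c) (hc : c ≤ c') :
    Cost N F c' := by
  obtain ⟨Φ, h1, h2, h3, h4⟩ := h
  exact ⟨Φ, h1, h2, h3, h4.trans hc⟩

theorem Cost.congr {N : (Sph n → V (n + 1)) → ℝ≥0∞} {F G : Dif n} {c : ℝ≥0∞} (h : Cost N F c) (hc : ∀ y, F y = G y) :
    Cost N G c := by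
  obtain ⟨Φ, h1, h2, h3, h4⟩ := h
  exact ⟨Φ, h1, h2, fun t ht y => (h3 t ht y).trans (hc y), h4⟩

end Pool.Agent.L0h85.DS
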