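import Pool.Agent.L0h85.DS.Mods

/-! # Stereographic charts -/

set_option autoImplicit false

open scoped Manifold ContDiff ENNReal Topology RealInnerProductSpace
open MeasureTheory Metric Set

namespace Pool.Agent.L0h85.DS

variable {n : ℕ}

theorem st_symm_ne (v : Sph n) (y : V n) : (st v).symm y ≠ v := by
  have h : (st v).symm y ∈ (st v).source := (st v).map_target (by simp)
  simpa using h

theorem st_right (v : Sph n) (y : V n) : st v ((st v).symm y) = y := (st v).right_inv (by simp)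

theorem st_left (v : Sph n) {x : Sph n} (h : x ≠ v) : (st v).symm (st v x) = x := (st v).left_inv (by simpa using h)

theorem st_symm_inj (v : Sph n) {y z : V n} (h : (st v).symm y = (st v).symm z) : y = z := by
  have := congrArg (st v) h
  rwa [st_right, st_right] at this

theorem inner_sg (v : Sph n) (y : V n) : ⟪(v : V (n + 1)), ((st v).symm y : V (n + 1))⟫ = (‖y‖ ^ 2 - 4) / (‖y‖ ^ 2 + 4) := by
  rw [stereographic'_symm_apply]
  set U : (ℝ ∙ (v : V (n + 1)))ᗮ ≃ₗᵢ[ℝ] V n :=
    (OrthonormalBasis.fromOrthogonalSpanSingleton n (ne_zero_of_mem_unit_sphere v)).repr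
  have h1 : ‖(U.symm y : V (n + 1))‖ = ‖y‖ := by
    rw [← Submodule.coe_norm, LinearIsometryEquiv.norm_map]
  have h2 : ⟪(v : V (n + 1)), (U.symm y : V (n + 1))⟫ = 0 := by
    have := (U.symm y).2
    rw [Submodule.mem_orthogonal_singleton_iff_inner_right] at this
    exact this
  have h3 : ⟪(v : V (n + 1)), (v : V (n + 1))⟫ = 1 := by
    rw [real_inner_self_eq_norm_sq, norm_eq_of_mem_sphere v]; norm_num
  simp only [h1]
  rw [inner_add_right, inner_smul_right, inner_smul_right, inner_smul_right, inner_smul_right, h2, h3]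
  have : ‖y‖ ^ 2 + 4 ≠ 0 := by positivity
  field_simp
  ring

theorem st_norm_mul (v : Sph n) {x : Sph n} (h1 : x ≠ v) (h2 : x ≠ -v) : ‖st v x‖ ^ 2 * ‖st (-v) x‖ ^ 2 = 16 := by
  have e1 := inner_sg v (st v x)
  have e2 := inner_sg (-v) (st (-v) x)
  rw [st_left v h1] at e1
  rw [st_left (-v) h2] at e2
  have e3 : ⟪((-v : Sph n) : V (n + 1)), (x : V (n + 1))⟫ = -⟪(v : V (n + 1)), (x : V (n + 1))⟫ := by
    rw [coe_neg_sphere, inner_neg_left]
  rw [e3, e1] at e2
  have p1 : ‖st v x‖ ^ 2 + 4 ≠ 0 := by positivity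
  have p2 : ‖st (-v) x‖ ^ 2 + 4 ≠ 0 := by positivity
  field_simp at e2
  nlinarith [e2]

theorem neg_sph_ne (v : Sph n) : -v ≠ v := by
  intro h
  have h1 : (-(v : V (n + 1))) = v := by
    rw [← coe_neg_sphere, h]
  have h2 : (v : V (n + 1)) = 0 := by
    have : (2 : ℝ) • (v : V (n + 1)) = 0 := by
      rw [two_smul]; nth_rewrite 1 [← h1]; simp
    simpa using this
  exact ne_zero_of_mem_unit_sphere v h2

theorem st_neg (v : Sph n) : st v (-v) = 0 := by
  have h := inner_sg v (st v (-v))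
  rw [st_left v (neg_sph_ne v), coe_neg_sphere, inner_neg_right, real_inner_self_eq_norm_sq, norm_eq_of_mem_sphere v] at h
  have p1 : ‖st v (-v)‖ ^ 2 + 4 ≠ 0 := by positivity
  field_simp at h
  have h2 : ‖st v (-v)‖ ^ 2 = 0 := by nlinarith
  simpa using h2

/-- every point is in one of the two closed caps -/
theorem cap_cover (v : Sph n) (x : Sph n) : (x ≠ v ∧ ‖st v x‖ ≤ 2) ∨ (x ≠ -v ∧ ‖st (-v) x‖ ≤ 2) := by
  by_cases h1 : x = v
  · right
    have h3 : x ≠ -v := by rw [h1]; exact fun h => neg_sph_ne v h.symm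
    refine ⟨h3, ?_⟩
    have := st_neg (-v)
    rw [neg_neg] at this
    rw [h1, this]; simp
  by_cases h2 : x = -v
  · left
    refine ⟨h1, ?_⟩
    rw [h2, st_neg]; simp
  by_cases h : ‖st v x‖ ≤ 2
  · exact Or.inl ⟨h1, h⟩
  · right
    refine ⟨h2, ?_⟩
    push Not at h
    have := st_norm_mul v h1 h2
    by_contra h'
    push Not at h'
    nlinarith [mul_pos (sub_pos.mpr h) (sub_pos.mpr h'), sq_nonneg (‖st v x‖ - 2), sq_nonneg (‖st (-v) x‖ - 2),
      norm_nonneg (st v x), norm_nonneg (st (-v) x)]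

/-- outside of a cap, in the opposite chart -/
theorem cap_opp (v : Sph n) {x : Sph n} (h1 : x ≠ v) (h2 : x ≠ -v) (h : 3 ≤ ‖st v x‖) : ‖st (-v) x‖ ≤ 2 := by
  have := st_norm_mul v h1 h2
  by_contra h'
  push Not at h'
  nlinarith [mul_pos (sub_pos.mpr h') (sub_pos.mpr h'), norm_nonneg (st v x), norm_nonneg (st (-v) x),
    mul_self_nonneg (‖st v x‖ * ‖st (-v) x‖)]

end Pool.Agent.L0h85.DS
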