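import Pool.Agent.L0h85.DS.FlatLem
import Pool.Agent.L0h85.DS.Stereo
import Pool.Agent.L0h85.DS.Hom

/-! # Squeezes and their lengths -/

set_option autoImplicit false

open scoped Manifold ContDiff ENNReal Topology
open MeasureTheory Metric Set

namespace Pool.Agent.L0h85.DS

variable {n : ℕ}

theorem exists_squeeze (hM4 : M4) (n : ℕ) : ∃ (g : Flat n) (θ : ℝ), 0 < θ ∧ θ < 1 ∧
    (∀ t ≤ 0, ∀ y, g.γ t y = y) ∧ (∀ t, 1 ≤ t → ∀ y, g.γ t y = g.γ 1 y) ∧ ∀ y, ‖y‖ ≤ 5 → g.γ 1 y = θ • y := by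
  let χ : ContDiffBump (0 : V n) := ⟨5, 6, by norm_num, by norm_num⟩
  have hψ : ContDiff ℝ ∞ (fun y : V n => χ y • y) := χ.contDiff.smul contDiff_id
  have hψ0 : ∀ y : V n, 6 ≤ ‖y‖ → χ y = 0 := fun y hy =>
    χ.zero_of_le_dist (by simpa [dist_zero_right] using hy)
  have hsupp : HasCompactSupport (fun y : V n => χ y • y) := by
    refine HasCompactSupport.intro (isCompact_closedBall (0 : V n) 6) fun y hy => ?_
    have : 6 ≤ ‖y‖ := by
      simp only [mem_closedBall, dist_zero_right, not_le] at hy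
      exact hy.le
    simp [hψ0 y this]
  obtain ⟨B, hB⟩ : ∃ B : ℝ, ∀ y, ‖fderiv ℝ (fun y : V n => χ y • y) y‖ ≤ B := by
    have h1 : HasCompactSupport (fderiv ℝ (fun y : V n => χ y • y)) := hsupp.fderiv (𝕜 := ℝ)
    have h2 : Continuous (fderiv ℝ (fun y : V n => χ y • y)) := hψ.continuous_fderiv (by simp)
    exact h1.exists_bound_of_continuous h2
  have hB0 : 0 ≤ B := (norm_nonneg _).trans (hB 0)
  set c : ℝ := 1 / (2 * (B + 1)) with hc
  have hc0 : 0 < c := by positivity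
  have hc1 : c ≤ 1 / 2 := by
    rw [hc]
    apply one_div_le_one_div_of_le (by norm_num)
    linarith
  have hcB : c * B ≤ 1 / 2 := by
    rw [hc, div_mul_eq_mul_div, one_mul, div_le_div_iff₀ (by positivity) (by norm_num)]
    linarith
  obtain ⟨g, hgR, hg⟩ := hM4 n (fun t y => -((c * Real.smoothTransition t) • (χ y • y))) 6
    (by
      have h1 : ContDiff ℝ ∞ (fun q : ℝ × V n => c * Real.smoothTransition q.1) :=
        contDiff_const.mul (Real.smoothTransition.contDiff.comp contDiff_fst)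
      exact (h1.smul (hψ.comp contDiff_snd)).neg)
    (by
      intro t y hy
      simp [hψ0 y hy])
    (by
      intro t y
      have h1 : DifferentiableAt ℝ (fun y : V n => χ y • y) y := hψ.differentiable (by simp) y
      rw [fderiv_fun_neg, fderiv_fun_const_smul h1, norm_neg, norm_smul, Real.norm_of_nonneg
        (mul_nonneg hc0.le (Real.smoothTransition.nonneg t))]
      calc c * Real.smoothTransition t * ‖fderiv ℝ (fun y : V n => χ y • y) y‖ ≤ c * 1 * B := by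
            gcongr
            · exact Real.smoothTransition.le_one t
            · exact hB y
        _ ≤ 1 / 2 := by linarith)
  refine ⟨g, 1 - c, by linarith, by linarith, ?_, ?_, ?_⟩
  · intro t ht y
    rw [hg, Real.smoothTransition.zero_of_nonpos ht]
    simp
  · intro t ht y
    rw [hg, hg, Real.smoothTransition.one_of_one_le ht, Real.smoothTransition.one]
  · intro y hy
    rw [hg, Real.smoothTransition.one, χ.one_of_mem_closedBall (by simpa [dist_zero_right] using hy)]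
    rw [mul_one, one_smul, sub_smul, one_smul]
    abel

theorem sum_sq_le {ι : Type} [Fintype ι] (a : ι → ℝ≥0∞) : (∑ α, a α ^ 2) ^ (1 / 2 : ℝ) ≤ ∑ α, a α := by
  have h1 : ∑ α, a α ^ 2 ≤ (∑ α, a α) ^ 2 := by
    rw [sq, Finset.sum_mul]
    refine Finset.sum_le_sum fun α _ => ?_
    rw [sq]
    gcongr
    exact Finset.single_le_sum (f := a) (fun _ _ => bot_le) (Finset.mem_univ α)
  calc (∑ α, a α ^ 2) ^ (1 / 2 : ℝ) ≤ ((∑ α, a α) ^ 2) ^ (1 / 2 : ℝ) := by gcongr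
    _ = ∑ α, a α := by
      rw [← ENNReal.rpow_natCast, ← ENNReal.rpow_mul]
      norm_num

theorem push_scale (v : Sph n) (g : Flat n) (q : V n) (ε : ℝ) (hε : 0 < ε) (t : ℝ) :
    push v 0 1 ((g.scale q ε hε).w t) = push v q ε (g.w t) := by
  funext x
  unfold push
  split_ifs with h
  · rfl
  · rw [Flat.scale_w, inv_one, one_smul, sub_zero, one_smul]

/-- the cost of transplanted scaled families -/
theorem transplant_cost (hM2 : M2) (hM3 : M3) {ι : Type} [Fintype ι] (A : ι → Chart n) (k : ℕ) (σ p : ℝ) (hn : 1 ≤ n)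
    (h0 : 0 ≤ σ) (h1 : σ < 1) (hp : 1 ≤ p) (v : Sph n) (g : Flat n) (hg0 : ∀ t ≤ 0, ∀ y, g.γ t y = y)
    (hg1 : ∀ t, 1 ≤ t → ∀ y, g.γ t y = g.γ 1 y) (R0 : ℝ) (hR0 : 0 ≤ R0) :
    ∃ C : ℝ, 0 ≤ C ∧ ∀ q : V n, ‖q‖ ≤ R0 → ∀ ε : ℝ, 0 < ε → ε ≤ 1 → ∃ F : Dif n,
      Cost (sobS A k σ p) F (ENNReal.ofReal (C * ε ^ (1 + n / p - k - σ))) ∧ F v = v ∧
      ∀ y, F ((st v).symm y) = (st v).symm (q + ε • g.γ 1 (ε⁻¹ • (y - q))) := by
  obtain ⟨M, hM, hMb⟩ := g.w_bound (k + 1)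
  have hex : ∀ α, ∃ C : ℝ, 0 ≤ C ∧ ∀ (q : V n) (ε : ℝ) (w : V n → V n), ‖q‖ ≤ max R0 g.R → 0 < ε → ε ≤ 1 →
      ContDiff ℝ ∞ w → (∀ y, max R0 g.R ≤ ‖y‖ → w y = 0) → (∀ j ≤ k + 1, ∀ y, ‖iteratedFDeriv ℝ j w y‖ ≤ M) →
      sob k σ p ((A α).rep (push v q ε w)) ≤ ENNReal.ofReal (C * ε ^ (1 + n / p - k - σ)) := fun α =>
    hM2 n (A α) v k σ p M (max R0 g.R) hn h0 h1 hp hM (le_max_of_le_left hR0)
  choose C hC0 hC using hex
  refine ⟨∑ α, C α, Finset.sum_nonneg fun α _ => hC0 α, ?_⟩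
  intro q hq ε hε hε1
  obtain ⟨Γ, hΓ, hv, hy, hy', hvel⟩ := hM3 n v (g.scale q ε hε) hn
  have hid : ∀ t ≤ 0, ∀ x, Γ t x = x := by
    intro t ht x
    by_cases hx : x = v
    · rw [hx, hv]
    · rw [← st_left v hx, hy]
      congr 1
      show q + ε • g.γ t (ε⁻¹ • (st v x - q)) = st v x
      rw [hg0 t ht, smul_smul, mul_inv_cancel₀ hε.ne', one_smul]
      abel
  have hone : ∀ t, 1 ≤ t → ∀ x, Γ t x = Γ 1 x := by
    intro t ht x
    by_cases hx : x = v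
    · rw [hx, hv, hv]
    · rw [← st_left v hx, hy, hy]
      congr 1
      show q + ε • g.γ t (ε⁻¹ • (st v x - q)) = q + ε • g.γ 1 (ε⁻¹ • (st v x - q))
      rw [hg1 t ht]
  refine ⟨Γ 1, ⟨Γ, hΓ, hid, hone, ?_⟩, hv 1, fun y => hy 1 y⟩
  have hb : ∀ t ∈ Icc (0 : ℝ) 1, sobS A k σ p (vel Γ t) ≤ ENNReal.ofReal ((∑ α, C α) * ε ^ (1 + n / p - k - σ)) := by
    intro t ht
    have e1 : vel Γ t = push v q ε (g.w t) := by
      rw [← push_scale v g q ε hε t]
      funext x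
      exact hvel t x
    rw [e1]
    unfold sobS
    refine (sum_sq_le _).trans ?_
    rw [Finset.sum_mul, ENNReal.ofReal_sum_of_nonneg (fun α _ => mul_nonneg (hC0 α) (Real.rpow_nonneg hε.le _))]
    refine Finset.sum_le_sum fun α _ => ?_
    refine hC α q ε (g.w t) (hq.trans (le_max_left _ _)) hε hε1 (g.w_smooth' t) ?_ ?_
    · intro y hy
      exact g.w_zero t y ((le_max_right _ _).trans hy)
    · intro j hj y
      exact hMb t ht j hj y
  calc ∫⁻ t in Icc (0 : ℝ) 1, sobS A k σ p (vel Γ t)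
      ≤ ∫⁻ _ in Icc (0 : ℝ) 1, ENNReal.ofReal ((∑ α, C α) * ε ^ (1 + n / p - k - σ)) :=
        setLIntegral_mono' measurableSet_Icc hb
    _ = _ := by simp

theorem homN {ι : Type} [Fintype ι] (A : ι → Chart n) (k : ℕ) (σ p : ℝ) (hp : 1 ≤ p) : HomN (sobS A k σ p) :=
  fun a ha h => sobS_smul A a ha k σ p (by linarith) h

theorem Cost.refl {N : (Sph n → V (n + 1)) → ℝ≥0∞} (hN0 : N (fun _ => 0) = 0) : Cost N (Diffeomorph.refl (𝓡 n) (Sph n) ∞) 0 := by
  refine ⟨fun _ => Diffeomorph.refl _ _ _, SmoothPath.const _, fun _ _ _ => rfl, fun _ _ _ => rfl, ?_⟩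
  have : ∀ t, vel (fun _ => Diffeomorph.refl (𝓡 n) (Sph n) ∞) t = fun _ => 0 := by
    intro t; funext x; unfold vel; simp
  simp [this, hN0]

theorem sob_zero {d : ℕ} (k : ℕ) (σ p : ℝ) (hp : 0 < p) : sob k σ p (fun _ : V n => (0 : V d)) = 0 := by
  have h : ∀ j : ℕ, iteratedFDeriv ℝ j (fun _ : V n => (0 : V d)) = 0 := by
    intro j
    have : (fun _ : V n => (0 : V d)) = 0 := rfl
    rw [this]
    funext x
    simp
  unfold sob
  simp only [h, Pi.zero_apply, sub_self, enorm_zero, ENNReal.zero_rpow_of_pos hp, ENNReal.zero_div, lintegral_zero,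
    Finset.sum_const_zero]
  rw [ENNReal.zero_rpow_of_pos (by positivity)]
  simp

theorem sobS_zero {ι : Type} [Fintype ι] (A : ι → Chart n) (k : ℕ) (σ p : ℝ) (hp : 0 < p) :
    sobS A k σ p (fun _ => 0) = 0 := by
  unfold sobS
  have : ∀ α, (A α).rep (fun _ => (0 : V (n + 1))) = fun _ => 0 := by
    intro α; funext z; unfold Chart.rep; simp
  simp only [this, sob_zero k σ p hp]
  simp

/-- squeezes of bounded cost: uniform in the centre `q` and in `m` -/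
theorem squeezes (hM2 : M2) (hM3 : M3) (hM4 : M4) {ι : Type} [Fintype ι] (A : ι → Chart n) (k : ℕ) (σ p : ℝ) (hn : 1 ≤ n)
    (h0 : 0 ≤ σ) (h1 : σ < 1) (hp : 1 ≤ p) (hs : (k : ℝ) + σ < 1 + n / p) (v : Sph n) (R0 : ℝ) (hR0 : 0 ≤ R0) :
    ∃ (C0 : ℝ≥0∞) (θ : ℝ), C0 ≠ ⊤ ∧ 0 < θ ∧ θ < 1 ∧ ∀ q : V n, ‖q‖ ≤ R0 → ∀ m : ℕ, ∃ H : Dif n,
      Cost (sobS A k σ p) H C0 ∧ H v = v ∧ ∀ y, ‖y - q‖ ≤ 5 → H ((st v).symm y) = (st v).symm (q + θ ^ m • (y - q)) := by
  obtain ⟨g, θ, hθ0, hθ1, hg0, hg1, hg5⟩ := exists_squeeze hM4 n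
  obtain ⟨C, hC, hcost⟩ := transplant_cost hM2 hM3 A k σ p hn h0 h1 hp v g hg0 hg1 R0 hR0
  set β : ℝ := 1 + n / p - k - σ with hβ
  have hβ0 : 0 < β := by rw [hβ]; linarith
  have hr0 : 0 ≤ θ ^ β := Real.rpow_nonneg hθ0.le _
  have hr1 : θ ^ β < 1 := Real.rpow_lt_one hθ0.le hθ1 hβ0
  refine ⟨ENNReal.ofReal (C * (1 - θ ^ β)⁻¹), θ, ENNReal.ofReal_ne_top, hθ0, hθ1, ?_⟩
  intro q hq m
  have key : ∃ H : Dif n, Cost (sobS A k σ p) H (ENNReal.ofReal (C * ∑ j ∈ Finset.range m, (θ ^ β) ^ j)) ∧ H v = v ∧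
      ∀ y, ‖y - q‖ ≤ 5 → H ((st v).symm y) = (st v).symm (q + θ ^ m • (y - q)) := by
    induction m with
    | zero =>
      refine ⟨Diffeomorph.refl _ _ _, ?_, rfl, ?_⟩
      · simpa using (Cost.refl (sobS_zero A k σ p (by linarith)))
      · intro y _
        simp
    | succ m ih =>
      obtain ⟨H, hH1, hH2, hH3⟩ := ih
      obtain ⟨F, hF1, hF2, hF3⟩ := hcost q hq (θ ^ m) (pow_pos hθ0 m) (pow_le_one₀ hθ0.le hθ1.le)
      refine ⟨H.trans F, ?_, ?_, ?_⟩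
      · have h := hH1.trans (homN A k σ p hp) hF1
        refine h.mono (le_of_eq ?_)
        rw [← ENNReal.ofReal_add (mul_nonneg hC (Finset.sum_nonneg fun _ _ => pow_nonneg hr0 _))
          (mul_nonneg hC (Real.rpow_nonneg (pow_nonneg hθ0.le _) _)), ← mul_add, Finset.sum_range_succ]
        congr 3
        rw [← Real.rpow_natCast (θ ^ β) m, ← Real.rpow_mul hθ0.le, mul_comm β, Real.rpow_mul hθ0.le, Real.rpow_natCast]
      · show F (H v) = v
        rw [hH2, hF2]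
      · intro y hy
        show F (H ((st v).symm y)) = _
        rw [hH3 y hy, hF3]
        congr 2
        rw [add_sub_cancel_left, smul_smul, inv_mul_cancel₀ (pow_pos hθ0 m).ne', one_smul, hg5 _ hy, smul_smul,
          pow_succ]
  obtain ⟨H, hH1, hH2, hH3⟩ := key
  refine ⟨H, hH1.mono (ENNReal.ofReal_le_ofReal ?_), hH2, hH3⟩
  refine mul_le_mul_of_nonneg_left ?_ hC
  have := (summable_geometric_of_lt_one hr0 hr1).sum_le_tsum (Finset.range m) (fun _ _ => pow_nonneg hr0 _)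
  rwa [tsum_geometric_of_lt_one hr0 hr1] at this

end Pool.Agent.L0h85.DS
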